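import Pool.Agent.Lib.MP_72e2e6_nt.P3.C.Spec

/-!
# MP_72e2e6_nt, T3p, part C: the constants form an algebraically closed subfield
-/

namespace Pool.Agent.MP72P

open Polynomial IntermediateField

private theorem Cst_iff {p : ℕ} [Fact p.Prime] {L : Type} [Field L] [CharP L p]
    [Algebra (ZMod p) L] (x : L) : x ∈ Cst p L ↔ IsAlgebraic (ZMod p) x := by
  have hp : 1 < p := (Fact.out : p.Prime).one_lt
  constructor
  · rintro ⟨n, hn, hx⟩
    refine ⟨X ^ p ^ n - X, FiniteField.X_pow_card_pow_sub_X_ne_zero (ZMod p) (by omega) hp, ?_⟩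
    rw [map_sub, map_pow, aeval_X, hx, sub_self]
  · intro hx
    have hfin : FiniteDimensional (ZMod p) (ZMod p)⟮x⟯ :=
      IntermediateField.adjoin.finiteDimensional hx.isIntegral
    have hfin2 : Finite (ZMod p)⟮x⟯ := Module.finite_of_finite (ZMod p)
    have _ := Fintype.ofFinite (ZMod p)⟮x⟯
    have hch : CharP (ZMod p)⟮x⟯ p := charP_of_injective_algebraMap
      (algebraMap (ZMod p) (ZMod p)⟮x⟯).injective p
    obtain ⟨n, -, hn⟩ := FiniteField.card (ZMod p)⟮x⟯ p
    refine ⟨n, n.2, ?_⟩
    have h1 := FiniteField.pow_card (⟨x, mem_adjoin_simple_self _ x⟩ : (ZMod p)⟮x⟯)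
    rw [hn] at h1
    exact congrArg Subtype.val h1

theorem tCst : S_Cst := by
  intro p _ L _ _ _
  let _ : Algebra (ZMod p) L := ZMod.algebra L p
  have hp : 1 < p := (Fact.out : p.Prime).one_lt
  let A : IntermediateField (ZMod p) L := algebraicClosure (ZMod p) L
  have hA : ∀ x : L, x ∈ Cst p L ↔ x ∈ A := fun x =>
    (Cst_iff x).trans (mem_algebraicClosure_iff (F := ZMod p) (E := L)).symm
  have halg : Algebra.IsAlgebraic (ZMod p) A := algebraicClosure.isAlgebraic (ZMod p) L
  have hlift : ∀ P : L[X], (∀ i, P.coeff i ∈ Cst p L) → ∃ P' : A[X],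
      P'.map (algebraMap A L) = P := by
    intro P hP
    have h1 : P ∈ lifts (algebraMap A L) := by
      rw [lifts_iff_coeff_lifts]
      intro i
      exact ⟨⟨P.coeff i, (hA _).1 (hP i)⟩, rfl⟩
    exact (mem_lifts P).1 h1
  have p5 : ∀ (P : Polynomial L) (x : L), P.Monic → (∀ i, P.coeff i ∈ Cst p L) →
      P.eval x = 0 → x ∈ Cst p L := by
    intro P x hP hc hx
    obtain ⟨P', hP'⟩ := hlift P hc
    have h1 : IsAlgebraic A x := by
      refine ⟨P', ?_, ?_⟩
      · rintro rfl
        rw [Polynomial.map_zero] at hP'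
        exact hP.ne_zero hP'.symm
      · rw [aeval_def, ← eval_map, hP', hx]
    rw [Cst_iff]
    exact h1.restrictScalars (ZMod p)
  refine ⟨(hA 0).2 A.zero_mem, (hA 1).2 A.one_mem, ?_, ?_, p5, ?_, ?_, ?_⟩
  · intro x hx y hy
    rw [hA] at hx hy
    simp only [hA]
    exact ⟨A.add_mem hx hy, A.mul_mem hx hy, A.sub_mem hx hy⟩
  · intro x hx
    rw [hA] at hx ⊢
    exact A.inv_mem hx
  · intro P hP hd hc
    obtain ⟨P', hP'⟩ := hlift P hc
    have hperf : PerfectField A := Algebra.IsAlgebraic.perfectField (ZMod p)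
    have hP'd : P'.natDegree = P.natDegree := by
      rw [← hP', natDegree_map]
    have hnu : ¬ IsUnit P' := by
      intro h
      have := natDegree_eq_zero_of_isUnit h
      omega
    have hP'0 : P' ≠ 0 := by
      rintro rfl
      rw [natDegree_zero] at hP'd
      omega
    obtain ⟨g, hg, hgP⟩ := WfDvdMonoid.exists_irreducible_factor hnu hP'0
    have hsep : (g.map (algebraMap A L)).Separable :=
      (PerfectField.separable_of_irreducible hg).map
    have hdeg : (g.map (algebraMap A L)).degree ≠ 0 := by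
      rw [degree_map]
      exact (degree_pos_of_irreducible hg).ne'
    obtain ⟨x, hx⟩ := IsSepClosed.exists_root _ hdeg hsep
    have hev : P.eval x = 0 := by
      obtain ⟨k, hk⟩ := hgP
      rw [← hP', hk, Polynomial.map_mul, eval_mul, hx.eq_zero, zero_mul]
    exact ⟨x, p5 P x hP hc hev, hev⟩
  · intro n hn
    have hQ : 1 < p ^ n := Nat.one_lt_pow (by omega) hp
    have hpQ : p ∣ p ^ n := dvd_pow_self p (by omega)
    have hsep : (X ^ p ^ n - X : L[X]).Separable := galois_poly_separable p (p ^ n) hpQ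
    have hdeg : (X ^ p ^ n - X : L[X]).natDegree = p ^ n :=
      FiniteField.X_pow_card_sub_X_natDegree_eq L hQ
    have hne : (X ^ p ^ n - X : L[X]) ≠ 0 := FiniteField.X_pow_card_sub_X_ne_zero L hQ
    have hcard := splits_iff_card_roots.mp (IsSepClosed.splits_of_separable _ hsep)
    rw [hdeg] at hcard
    classical
    have hset : {x : L | x ^ p ^ n = x} = ((X ^ p ^ n - X : L[X]).roots.toFinset : Set L) := by
      ext x
      rw [Set.mem_ofPred_eq, Finset.mem_coe, Multiset.mem_toFinset, mem_roots hne, IsRoot,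
        eval_sub, eval_pow, eval_X, sub_eq_zero]
    rw [hset, Set.ncard_coe_finset, Multiset.toFinset_card_of_nodup (nodup_roots hsep), hcard]
  · intro c
    rw [hA]
    exact A.natCast_mem _

end Pool.Agent.MP72P
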