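import Pool.Agent.Lib.MP_72e2e6_nt.P3.C.Spec

/-!
# MP_72e2e6_nt, theorem T3p, part C: coordinates of a finite group of functions (Fdl)
-/

namespace Pool.Agent.MP72P

open Finset

private theorem fdl_aux (p : ℕ) [Fact p.Prime] (Γ : Type) (n : ℕ) :
    ∀ 𝒦 : AddSubgroup (Γ → ZMod p), (𝒦 : Set (Γ → ZMod p)).Finite →
      (𝒦 : Set (Γ → ZMod p)).ncard = n →
      ∃ (d : ℕ) (e : Fin d → Γ), ∀ c : Fin d → ZMod p, ∃! y : 𝒦, ∀ j, y.1 (e j) = c j := by
  induction n using Nat.strong_induction_on with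
  | _ n ih =>
    intro 𝒦 hfin hcard
    by_cases h : ∃ y ∈ 𝒦, ∃ g, y g ≠ 0
    · obtain ⟨y₀, hy₀, g, hg⟩ := h
      let 𝒦' : AddSubgroup (Γ → ZMod p) :=
        𝒦 ⊓ (Pi.evalAddMonoidHom (fun _ : Γ => ZMod p) g).ker
      have hmem : ∀ y : Γ → ZMod p, y ∈ 𝒦' ↔ y ∈ 𝒦 ∧ y g = 0 := by
        intro y
        exact Iff.rfl
      have hss : (𝒦' : Set (Γ → ZMod p)) ⊂ 𝒦 := by
        refine ⟨fun y hy => ((hmem y).1 hy).1, fun hle => ?_⟩
        exact hg ((hmem y₀).1 (hle hy₀)).2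
      have hlt : (𝒦' : Set (Γ → ZMod p)).ncard < n := by
        rw [← hcard]
        exact Set.ncard_lt_ncard hss hfin
      obtain ⟨d, e, he⟩ := ih _ hlt 𝒦' (hfin.subset hss.1) rfl
      refine ⟨d + 1, Fin.cons g e, fun c => ?_⟩
      -- an element with the right value at `g`
      obtain ⟨y₁, hy₁, hy₁g⟩ : ∃ y₁ ∈ 𝒦, y₁ g = c 0 := by
        refine ⟨(c 0 * (y₀ g)⁻¹).val • y₀, 𝒦.nsmul_mem hy₀ _, ?_⟩
        rw [Pi.smul_apply, nsmul_eq_mul, ZMod.natCast_zmod_val, mul_assoc, inv_mul_cancel₀ hg,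
          mul_one]
      obtain ⟨y', hy', huniq⟩ := he fun j => c j.succ - y₁ (e j)
      have hy'm := (hmem y'.1).1 y'.2
      refine ⟨⟨y₁ + y'.1, 𝒦.add_mem hy₁ hy'm.1⟩, ?_, ?_⟩
      · intro j
        refine Fin.cases ?_ (fun j => ?_) j
        · show (y₁ + y'.1) g = c 0
          rw [Pi.add_apply, hy'm.2, add_zero, hy₁g]
        · show (y₁ + y'.1) (e j) = c j.succ
          rw [Pi.add_apply, hy' j]
          ring
      · intro z hz
        have hz0 : z.1 g = c 0 := hz 0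
        have hzs : ∀ j, z.1 (e j) = c j.succ := fun j => hz j.succ
        have hzm : z.1 - y₁ ∈ 𝒦' := by
          rw [hmem]
          refine ⟨𝒦.sub_mem z.2 hy₁, ?_⟩
          rw [Pi.sub_apply, hz0, hy₁g, sub_self]
        have := huniq ⟨z.1 - y₁, hzm⟩ fun j => by
          show (z.1 - y₁) (e j) = _
          rw [Pi.sub_apply, hzs j]
        refine Subtype.ext ?_
        show z.1 = y₁ + y'.1
        rw [← this]
        show z.1 = y₁ + (z.1 - y₁)
        abel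
    · push Not at h
      refine ⟨0, fun j => j.elim0, fun c => ⟨0, fun j => j.elim0, fun y _ => ?_⟩⟩
      refine Subtype.ext (funext fun g => ?_)
      exact h y.1 y.2 g

theorem tFdl : S_Fdl := by
  intro p _ Γ 𝒦 hfin
  obtain ⟨d, e, he⟩ := fdl_aux p Γ _ 𝒦 hfin rfl
  refine ⟨d, e, ?_, he⟩
  have hbij : Function.Bijective (fun (y : 𝒦) (j : Fin d) => y.1 (e j)) := by
    constructor
    · intro y z hyz
      obtain ⟨w, -, hw⟩ := he fun j => z.1 (e j)
      rw [hw y fun j => congrFun hyz j, hw z fun j => rfl]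
    · intro c
      obtain ⟨w, hw, -⟩ := he c
      exact ⟨w, funext hw⟩
  rw [Nat.card_congr (Equiv.ofBijective _ hbij), Nat.card_fun, Nat.card_zmod,
    Nat.card_eq_fintype_card, Fintype.card_fin]

end Pool.Agent.MP72P
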