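import Pool.Agent.Lib.MP_72e2e6_nt.P3.C.Spec

/-!
# MP_72e2e6_nt, theorem T3p, part C: local Frobenius elements
-/

set_option autoImplicit false

namespace Pool.Agent.MP72P

open Polynomial IntermediateField

section

variable {p : ℕ} [Fact p.Prime] {K L : Type} [Field K] [Field L] [Algebra K L] [CharP L p]
  [IsGalois K L]

/-- the subfield of the elements with `x ^ (p ^ m) = x` -/
private noncomputable def fr_S (p : ℕ) [Fact p.Prime] (L : Type) [Field L] [CharP L p] (m : ℕ) :
    Subfield L :=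
  (iterateFrobenius L p m).eqLocusField (RingHom.id L)

omit [Algebra K L] [IsGalois K L] [Field K] in
private theorem fr_mem {m : ℕ} {x : L} : x ∈ fr_S p L m ↔ x ^ p ^ m = x := by
  unfold fr_S
  rw [RingHom.mem_eqLocusField]
  rfl

omit [Algebra K L] [IsGalois K L] [Field K] in
private theorem fr_fin {m : ℕ} (hm : 1 ≤ m) : Finite (fr_S p L m) := by
  classical
  have hp : 1 < p := (Fact.out : p.Prime).one_lt
  have hne : (X ^ p ^ m - X : L[X]) ≠ 0 :=
    FiniteField.X_pow_card_sub_X_ne_zero _ (Nat.one_lt_pow (by omega) hp)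
  have h1 : (fr_S p L m : Set L) ⊆ (X ^ p ^ m - X : L[X]).roots.toFinset := by
    intro x hx
    have hx' : x ^ p ^ m = x := fr_mem.1 hx
    simp [hne, hx']
  exact ((Finset.finite_toSet _).subset h1).to_subtype

/-- Frobenius on a constant -/
private theorem fr_A {r m : ℕ}
    (hK : ∀ x : K, (algebraMap K L x) ^ p ^ m = algebraMap K L x → x ^ p ^ r = x) (c : L)
    (hc : c ^ p ^ m = c) : ∃ g : Gal(L/K), g c = c ^ p ^ r := by
  have hint : IsIntegral K c := Algebra.IsIntegral.isIntegral c
  have hsp : ((minpoly K c).map (algebraMap K L)).Splits := Normal.splits inferInstance c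
  have hmon : ((minpoly K c).map (algebraMap K L)).Monic := (minpoly.monic hint).map _
  have hroot : ∀ y ∈ ((minpoly K c).map (algebraMap K L)).roots, y ∈ fr_S p L m := by
    intro y hy
    rw [mem_roots', IsRoot, eval_map_algebraMap] at hy
    have h1 : IsConjRoot K c y := (isConjRoot_iff_aeval_eq_zero hint).2 hy.2
    obtain ⟨σ, hσ⟩ := h1.symm.exists_algEquiv
    rw [fr_mem, ← hσ, ← map_pow, hc]
  have hlift : (minpoly K c).map (algebraMap K L) ∈ Polynomial.lifts (fr_S p L m).subtype := by
    rw [hsp.eq_prod_roots_of_monic hmon]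
    refine multiset_prod_mem _ fun P hP => ?_
    obtain ⟨y, hy, rfl⟩ := Multiset.mem_map.1 hP
    exact (Polynomial.mem_lifts _).2 ⟨X - C ⟨y, hroot y hy⟩, by simp⟩
  obtain ⟨p', hp'⟩ := (Polynomial.mem_lifts _).1 hlift
  have hcoef : ∀ i, ((minpoly K c).coeff i) ^ p ^ r = (minpoly K c).coeff i := by
    intro i
    apply hK
    have h1 := congrArg (fun P => P.coeff i) hp'
    simp only [coeff_map] at h1
    rw [← h1]
    exact fr_mem.1 (p'.coeff i).2
  have haev : aeval (c ^ p ^ r) (minpoly K c) = 0 := by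
    have h1 := congrArg (iterateFrobenius L p r) (minpoly.aeval K c)
    rw [map_zero, aeval_eq_sum_range, map_sum] at h1
    rw [aeval_eq_sum_range, ← h1]
    refine Finset.sum_congr rfl fun i _ => ?_
    rw [Algebra.smul_def, Algebra.smul_def, map_mul, map_pow, iterateFrobenius_def,
      iterateFrobenius_def, ← map_pow, hcoef]
  have h2 : IsConjRoot K c (c ^ p ^ r) := (isConjRoot_iff_aeval_eq_zero hint).2 haev
  exact h2.symm.exists_algEquiv

private theorem fr_B {r m : ℕ} (hm : 1 ≤ m)
    (hK : ∀ x : K, (algebraMap K L x) ^ p ^ m = algebraMap K L x → x ^ p ^ r = x) :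
    ∃ g : Gal(L/K), ∀ x : L, x ^ p ^ m = x → g x = x ^ p ^ r := by
  have hp : 0 < p := (Fact.out : p.Prime).pos
  have := fr_fin (p := p) (L := L) hm
  obtain ⟨u, hu⟩ := IsCyclic.exists_generator (α := (fr_S p L m)ˣ)
  obtain ⟨g, hg⟩ := fr_A (K := K) hK (((u : fr_S p L m) : L)) (fr_mem.1 (u : fr_S p L m).2)
  refine ⟨g, fun x hx => ?_⟩
  by_cases hx0 : x = 0
  · rw [hx0, map_zero, zero_pow (by positivity)]
  · have hxS : x ∈ fr_S p L m := fr_mem.2 hx
    have hne : (⟨x, hxS⟩ : fr_S p L m) ≠ 0 := fun h => hx0 (congrArg Subtype.val h)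
    obtain ⟨j, hj⟩ := Subgroup.mem_zpowers_iff.1 (hu (Units.mk0 ⟨x, hxS⟩ hne))
    have h1 : (((u : fr_S p L m) : L)) ^ j = x := by
      have h2 := congrArg (fun w : (fr_S p L m)ˣ => ((w : fr_S p L m) : L)) hj
      have h3 : (((u : fr_S p L m) ^ j : fr_S p L m) : L) = ((u : fr_S p L m) : L) ^ j :=
        map_zpow₀ (fr_S p L m).subtype _ _
      rw [← h3, ← Units.val_zpow_eq_zpow_val]
      exact h2
    rw [← h1, map_zpow₀, hg, ← zpow_natCast, ← zpow_natCast, ← zpow_mul, ← zpow_mul, mul_comm]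

omit [CharP L p] [Fact p.Prime] in
open Pointwise in
private theorem fr_closed (x y : L) : IsClosed {g : Gal(L/K) | g x = y} := by
  rcases Set.eq_empty_or_nonempty {g : Gal(L/K) | g x = y} with h | ⟨g₀, hg₀⟩
  · rw [h]; exact isClosed_empty
  · have h1 : IsClosed (MulAction.stabilizer Gal(L/K) x : Set Gal(L/K)) :=
      Subgroup.isClosed_of_isOpen _ (stabilizer_isOpen_of_isIntegral x)
    have h2 : {g : Gal(L/K) | g x = y} =
        g₀ • (MulAction.stabilizer Gal(L/K) x : Set Gal(L/K)) := by
      ext g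
      rw [mem_leftCoset_iff]
      show g x = y ↔ g₀⁻¹ * g ∈ MulAction.stabilizer Gal(L/K) x
      rw [MulAction.mem_stabilizer_iff]
      have h3 : (g₀⁻¹ * g) • x = g₀⁻¹ (g x) := rfl
      rw [h3]
      have h4 : g₀ x = y := hg₀
      constructor
      · intro h
        rw [h, ← h4]
        exact g₀.symm_apply_apply x
      · intro h
        rw [← h4, ← congrArg g₀ h]
        exact (g₀.apply_symm_apply (g x)).symm
    rw [h2]
    exact h1.leftCoset g₀

/-- There is a Frobenius element. -/
private theorem fr_fro {r : ℕ} (hK : ∀ x : K, algebraMap K L x ∈ Cst p L → x ^ p ^ r = x) :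
    ∃ g : Gal(L/K), IsFro p (p ^ r) g := by
  obtain ⟨t, ht⟩ : ∃ t : ℕ → Set Gal(L/K), t = fun n =>
    {g | ∀ x : L, x ^ p ^ (n + 1) = x → g x = x ^ p ^ r} := ⟨_, rfl⟩
  have hcl : ∀ n, IsClosed (t n) := by
    intro n
    have : t n = ⋂ x : {x : L // x ^ p ^ (n + 1) = x},
        {g : Gal(L/K) | g x.1 = x.1 ^ p ^ r} := by
      ext g
      rw [ht, Set.mem_iInter]
      exact ⟨fun h x => h x.1 x.2, fun h x hx => h ⟨x, hx⟩⟩
    rw [this]
    exact isClosed_iInter fun x => fr_closed _ _
  have hne : (⋂ n, t n).Nonempty := by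
    refine IsCompact.nonempty_iInter_of_directed_nonempty_isCompact_isClosed t ?_ ?_
      (fun n => (hcl n).isCompact) hcl
    · intro n m
      have hsub : ∀ (n m k : ℕ), k + 1 = (n + 1) * (m + 1) → t k ⊆ t n := by
        intro n m k hk g hg
        rw [ht] at hg ⊢
        intro x hx
        apply hg
        rw [hk, pow_mul]
        have : ∀ j : ℕ, x ^ (p ^ (n + 1)) ^ j = x := by
          intro j
          induction j with
          | zero => rw [pow_zero, pow_one]
          | succ j ih => rw [pow_succ, pow_mul, ih, hx]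
        exact this _
      refine ⟨(n + 1) * (m + 1) - 1, hsub n m _ ?_, hsub m n _ ?_⟩
      · exact Nat.sub_add_cancel (Nat.mul_pos (by omega) (by omega))
      · rw [mul_comm (m + 1)]
        exact Nat.sub_add_cancel (Nat.mul_pos (by omega) (by omega))
    · intro n
      obtain ⟨g, hg⟩ := fr_B (p := p) (K := K) (L := L) (r := r) (m := n + 1) (by omega)
        fun x hx => hK x ⟨n + 1, by omega, hx⟩
      exact ⟨g, by rw [ht]; exact hg⟩
  obtain ⟨g, hg⟩ := hne
  refine ⟨g, ?_⟩
  rintro x ⟨n, hn, hx⟩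
  have h1 := Set.mem_iInter.1 hg (n - 1)
  rw [ht] at h1
  exact h1 x (by rw [Nat.sub_add_cancel hn]; exact hx)

end

theorem tFrL (_h1 : S_Lc1) (_h2 : S_Lc2) (_h3 : S_Cst) (hNr : S_Nr) : S_FrL := by
  classical
  intro p _ K _ _ v Q ϖ R hLF
  obtain ⟨hchar, hnr7⟩ : CharP v.Completion p ∧ ∀ x : v.Completion,
      algebraMap v.Completion (Kvs v) x ∈ Cst p (Kvs v) → x ^ Q = x :=
    ⟨(_h1 p K v Q ϖ R hLF).2.2.2.2.2.2.1, (hNr p K v Q ϖ R hLF).2.2.2.2.2.2.1⟩
  have hcharK : CharP (Kvs v) p :=
    charP_of_injective_algebraMap (algebraMap v.Completion (Kvs v)).injective p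
  obtain ⟨r, hr, hQ⟩ := hLF.qp
  have hp : 1 < p := (Fact.out : p.Prime).one_lt
  refine ⟨?_, ?_⟩
  · rw [hQ]
    refine fr_fro fun x hx => ?_
    rw [← hQ]
    exact hnr7 x hx
  · -- the constants of the completion
    have hfin : Finite (fr_S p v.Completion r) := fr_fin hr
    have hsub : ∀ (x y : v.Completion) (n : ℕ), (x - y) ^ p ^ n = x ^ p ^ n - y ^ p ^ n :=
      fun x y n => sub_pow_char_pow x y n
    let ψ : fr_S p v.Completion r → fr_S p v.Completion r := fun x =>
      ⟨x.1 ^ p - x.1, by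
        rw [fr_mem, hsub, ← pow_mul, mul_comm p, pow_mul, fr_mem.1 x.2]⟩
    have hns : ¬ Function.Surjective ψ := by
      intro h
      have h1 : Function.Injective ψ := Finite.injective_iff_surjective.2 h
      have h2 : ψ 0 = ψ 1 := by
        apply Subtype.ext
        show (0 : v.Completion) ^ p - 0 = 1 ^ p - 1
        rw [zero_pow (by omega), one_pow, sub_zero, sub_self]
      exact zero_ne_one (h1 h2)
    rw [Function.Surjective] at hns
    push Not at hns
    obtain ⟨c, hc⟩ := hns
    have hcQ : c.1 ^ p ^ r = c.1 := fr_mem.1 c.2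
    refine ⟨c.1, by rw [hQ]; exact hcQ, fun y hy => ?_⟩
    -- `z = y ^ Q - y` is in the prime field
    obtain ⟨z, hz⟩ : ∃ z : v.Completion, z = y ^ p ^ r - y := ⟨_, rfl⟩
    have hz1 : z ^ p = z := by
      have h1 : (y ^ p ^ r - y) ^ p = (y ^ p) ^ p ^ r - y ^ p := by
        have h2 := hsub (y ^ p ^ r) y 1
        rw [pow_one] at h2
        rw [h2, ← pow_mul, ← pow_mul, mul_comm]
      have h3 : (y ^ p - y) ^ p ^ r = (y ^ p) ^ p ^ r - y ^ p ^ r := hsub _ _ _
      rw [hy, hcQ, ← hy] at h3
      rw [hz, h1]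
      have h4 : (y ^ p) ^ p ^ r = y ^ p - y + y ^ p ^ r := by rw [h3]; ring
      rw [h4]
      ring
    have hzr : ∀ n : ℕ, z ^ p ^ n = z := by
      intro n
      induction n with
      | zero => rw [pow_zero, pow_one]
      | succ n ih => rw [pow_succ, pow_mul, ih, hz1]
    have hyn : ∀ n : ℕ, y ^ (p ^ (r * n)) = y + n * z := by
      intro n
      induction n with
      | zero => rw [mul_zero, pow_zero, pow_one, Nat.cast_zero, zero_mul, add_zero]
      | succ n ih =>
        have h1 : (y + (n : v.Completion) * z) ^ p ^ r =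
            y ^ p ^ r + (n : v.Completion) ^ p ^ r * z ^ p ^ r := by
          rw [add_pow_char_pow, mul_pow]
        have h2 : ((n : v.Completion)) ^ p ^ r = n := by
          have h3 : ∀ k : ℕ, ((n : v.Completion)) ^ p ^ k = n := by
            intro k
            induction k with
            | zero => rw [pow_zero, pow_one]
            | succ k ih =>
              rw [pow_succ, pow_mul, ih]
              have h4 : ((n : ZMod p)) ^ p = n := ZMod.pow_card _
              have h5 := congrArg (ZMod.castHom dvd_rfl v.Completion) h4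
              rw [map_pow, map_natCast] at h5
              exact h5
          exact h3 r
        have h6 : y ^ p ^ r = y + z := by rw [hz]; ring
        rw [Nat.mul_succ, pow_add, pow_mul, ih, h1, h2, hzr, h6]
        push_cast
        ring
    have hyc : algebraMap v.Completion (Kvs v) y ∈ Cst p (Kvs v) := by
      refine ⟨r * p, Nat.mul_pos hr (by omega), ?_⟩
      rw [← map_pow, hyn p, CharP.cast_eq_zero, zero_mul, add_zero]
    have hyQ := hnr7 y hyc
    rw [hQ] at hyQ
    exact hc ⟨y, fr_mem.2 hyQ⟩ (Subtype.ext hy)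

end Pool.Agent.MP72P
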