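import Pool.Agent.Lib.MP_72e2e6_nt.P3.C.Spec

/-!
# MP_72e2e6_nt, theorem T3p, part C: global constants and Frobenius elements
-/

set_option autoImplicit false

namespace Pool.Agent.MP72P

open Polynomial IntermediateField

section

variable {p : ℕ} [Fact p.Prime] {K L : Type} [Field K] [Field L] [Algebra K L] [CharP L p]
  [IsGalois K L]

/-- the subfield of the elements with `x ^ (p ^ m) = x` -/
private noncomputable def frG_S (p : ℕ) [Fact p.Prime] (L : Type) [Field L] [CharP L p] (m : ℕ) :
    Subfield L :=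
  (iterateFrobenius L p m).eqLocusField (RingHom.id L)

omit [Algebra K L] [IsGalois K L] [Field K] in
private theorem frG_mem {m : ℕ} {x : L} : x ∈ frG_S p L m ↔ x ^ p ^ m = x := by
  unfold frG_S
  rw [RingHom.mem_eqLocusField]
  rfl

omit [Algebra K L] [IsGalois K L] [Field K] in
private theorem frG_fin {m : ℕ} (hm : 1 ≤ m) : Finite (frG_S p L m) := by
  classical
  have hp : 1 < p := (Fact.out : p.Prime).one_lt
  have hne : (X ^ p ^ m - X : L[X]) ≠ 0 :=
    FiniteField.X_pow_card_sub_X_ne_zero _ (Nat.one_lt_pow (by omega) hp)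
  have h1 : (frG_S p L m : Set L) ⊆ (X ^ p ^ m - X : L[X]).roots.toFinset := by
    intro x hx
    have hx' : x ^ p ^ m = x := frG_mem.1 hx
    simp [hne, hx']
  exact ((Finset.finite_toSet _).subset h1).to_subtype

/-- Frobenius on a constant -/
private theorem frG_A {r m : ℕ}
    (hK : ∀ x : K, (algebraMap K L x) ^ p ^ m = algebraMap K L x → x ^ p ^ r = x) (c : L)
    (hc : c ^ p ^ m = c) : ∃ g : Gal(L/K), g c = c ^ p ^ r := by
  have hint : IsIntegral K c := Algebra.IsIntegral.isIntegral c
  have hsp : ((minpoly K c).map (algebraMap K L)).Splits := Normal.splits inferInstance c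
  have hmon : ((minpoly K c).map (algebraMap K L)).Monic := (minpoly.monic hint).map _
  have hroot : ∀ y ∈ ((minpoly K c).map (algebraMap K L)).roots, y ∈ frG_S p L m := by
    intro y hy
    rw [mem_roots', IsRoot, eval_map_algebraMap] at hy
    have h1 : IsConjRoot K c y := (isConjRoot_iff_aeval_eq_zero hint).2 hy.2
    obtain ⟨σ, hσ⟩ := h1.symm.exists_algEquiv
    rw [frG_mem, ← hσ, ← map_pow, hc]
  have hlift : (minpoly K c).map (algebraMap K L) ∈ Polynomial.lifts (frG_S p L m).subtype := by
    rw [hsp.eq_prod_roots_of_monic hmon]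
    refine multiset_prod_mem _ fun P hP => ?_
    obtain ⟨y, hy, rfl⟩ := Multiset.mem_map.1 hP
    exact (Polynomial.mem_lifts _).2 ⟨X - C ⟨y, hroot y hy⟩, by simp⟩
  obtain ⟨p', hp'⟩ := (Polynomial.mem_lifts _).1 hlift
  have hcoef : ∀ i, ((minpoly K c).coeff i) ^ p ^ r = (minpoly K c).coeff i := by
    intro i
    apply hK
    have h1 := congrArg (fun P => P.coeff i) hp'
    simp only [coeff_map] at h1
    rw [← h1]
    exact frG_mem.1 (p'.coeff i).2
  have haev : aeval (c ^ p ^ r) (minpoly K c) = 0 := by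
    have h1 := congrArg (iterateFrobenius L p r) (minpoly.aeval K c)
    rw [map_zero, aeval_eq_sum_range, map_sum] at h1
    rw [aeval_eq_sum_range, ← h1]
    refine Finset.sum_congr rfl fun i _ => ?_
    rw [Algebra.smul_def, Algebra.smul_def, map_mul, map_pow, iterateFrobenius_def,
      iterateFrobenius_def, ← map_pow, hcoef]
  have h2 : IsConjRoot K c (c ^ p ^ r) := (isConjRoot_iff_aeval_eq_zero hint).2 haev
  exact h2.symm.exists_algEquiv

private theorem frG_B {r m : ℕ} (hm : 1 ≤ m)
    (hK : ∀ x : K, (algebraMap K L x) ^ p ^ m = algebraMap K L x → x ^ p ^ r = x) :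
    ∃ g : Gal(L/K), ∀ x : L, x ^ p ^ m = x → g x = x ^ p ^ r := by
  have hp : 0 < p := (Fact.out : p.Prime).pos
  have := frG_fin (p := p) (L := L) hm
  obtain ⟨u, hu⟩ := IsCyclic.exists_generator (α := (frG_S p L m)ˣ)
  obtain ⟨g, hg⟩ := frG_A (K := K) hK (((u : frG_S p L m) : L)) (frG_mem.1 (u : frG_S p L m).2)
  refine ⟨g, fun x hx => ?_⟩
  by_cases hx0 : x = 0
  · rw [hx0, map_zero, zero_pow (by positivity)]
  · have hxS : x ∈ frG_S p L m := frG_mem.2 hx
    have hne : (⟨x, hxS⟩ : frG_S p L m) ≠ 0 := fun h => hx0 (congrArg Subtype.val h)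
    obtain ⟨j, hj⟩ := Subgroup.mem_zpowers_iff.1 (hu (Units.mk0 ⟨x, hxS⟩ hne))
    have h1 : (((u : frG_S p L m) : L)) ^ j = x := by
      have h2 := congrArg (fun w : (frG_S p L m)ˣ => ((w : frG_S p L m) : L)) hj
      have h3 : (((u : frG_S p L m) ^ j : frG_S p L m) : L) = ((u : frG_S p L m) : L) ^ j :=
        map_zpow₀ (frG_S p L m).subtype _ _
      rw [← h3, ← Units.val_zpow_eq_zpow_val]
      exact h2
    rw [← h1, map_zpow₀, hg, ← zpow_natCast, ← zpow_natCast, ← zpow_mul, ← zpow_mul, mul_comm]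

omit [CharP L p] [Fact p.Prime] in
open Pointwise in
private theorem frG_closed (x y : L) : IsClosed {g : Gal(L/K) | g x = y} := by
  rcases Set.eq_empty_or_nonempty {g : Gal(L/K) | g x = y} with h | ⟨g₀, hg₀⟩
  · rw [h]; exact isClosed_empty
  · have h1 : IsClosed (MulAction.stabilizer Gal(L/K) x : Set Gal(L/K)) :=
      Subgroup.isClosed_of_isOpen _ (stabilizer_isOpen_of_isIntegral x)
    have h2 : {g : Gal(L/K) | g x = y} =
        g₀ • (MulAction.stabilizer Gal(L/K) x : Set Gal(L/K)) := by
      ext g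
      rw [mem_leftCoset_iff]
      show g x = y ↔ g₀⁻¹ * g ∈ MulAction.stabilizer Gal(L/K) x
      rw [MulAction.mem_stabilizer_iff]
      have h3 : (g₀⁻¹ * g) • x = g₀⁻¹ (g x) := rfl
      rw [h3]
      have h4 : g₀ x = y := hg₀
      constructor
      · intro h
        rw [h, ← h4]
        exact g₀.symm_apply_apply x
      · intro h
        rw [← h4, ← congrArg g₀ h]
        exact (g₀.apply_symm_apply (g x)).symm
    rw [h2]
    exact h1.leftCoset g₀

/-- There is a Frobenius element. -/
private theorem frG_fro {r : ℕ} (hK : ∀ x : K, algebraMap K L x ∈ Cst p L → x ^ p ^ r = x) :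
    ∃ g : Gal(L/K), IsFro p (p ^ r) g := by
  obtain ⟨t, ht⟩ : ∃ t : ℕ → Set Gal(L/K), t = fun n =>
    {g | ∀ x : L, x ^ p ^ (n + 1) = x → g x = x ^ p ^ r} := ⟨_, rfl⟩
  have hcl : ∀ n, IsClosed (t n) := by
    intro n
    have : t n = ⋂ x : {x : L // x ^ p ^ (n + 1) = x},
        {g : Gal(L/K) | g x.1 = x.1 ^ p ^ r} := by
      ext g
      rw [ht, Set.mem_iInter]
      exact ⟨fun h x => h x.1 x.2, fun h x hx => h ⟨x, hx⟩⟩
    rw [this]
    exact isClosed_iInter fun x => frG_closed _ _
  have hne : (⋂ n, t n).Nonempty := by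
    refine IsCompact.nonempty_iInter_of_directed_nonempty_isCompact_isClosed t ?_ ?_
      (fun n => (hcl n).isCompact) hcl
    · intro n m
      have hsub : ∀ (n m k : ℕ), k + 1 = (n + 1) * (m + 1) → t k ⊆ t n := by
        intro n m k hk g hg
        rw [ht] at hg ⊢
        intro x hx
        apply hg
        rw [hk, pow_mul]
        have : ∀ j : ℕ, x ^ (p ^ (n + 1)) ^ j = x := by
          intro j
          induction j with
          | zero => rw [pow_zero, pow_one]
          | succ j ih => rw [pow_succ, pow_mul, ih, hx]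
        exact this _
      refine ⟨(n + 1) * (m + 1) - 1, hsub n m _ ?_, hsub m n _ ?_⟩
      · exact Nat.sub_add_cancel (Nat.mul_pos (by omega) (by omega))
      · rw [mul_comm (m + 1)]
        exact Nat.sub_add_cancel (Nat.mul_pos (by omega) (by omega))
    · intro n
      obtain ⟨g, hg⟩ := frG_B (p := p) (K := K) (L := L) (r := r) (m := n + 1) (by omega)
        fun x hx => hK x ⟨n + 1, by omega, hx⟩
      exact ⟨g, by rw [ht]; exact hg⟩
  obtain ⟨g, hg⟩ := hne
  refine ⟨g, ?_⟩
  rintro x ⟨n, hn, hx⟩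
  have h1 := Set.mem_iInter.1 hg (n - 1)
  rw [ht] at h1
  exact h1 x (by rw [Nat.sub_add_cancel hn]; exact hx)

end

theorem tFrG (hCst : S_Cst) : S_FrG := by
  classical
  intro p _ K _ _ q₀ r hr hq hK
  have hp : 1 < p := (Fact.out : p.Prime).one_lt
  have hchar : CharP (Kgs K) p :=
    charP_of_injective_algebraMap (algebraMap K (Kgs K)).injective p
  obtain ⟨-, -, -, -, -, -, hcard, -⟩ := hCst p (Kgs K)
  have p2 : ∃ g : Gal(Kgs K/K), IsFro p q₀ g := by
    rw [hq]
    refine frG_fro fun x hx => ?_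
    rw [← hq]
    exact (hK x).1 hx
  have p3 : ∀ g : Gal(Kgs K/K), IsGeo p g ↔ ∀ x ∈ Kgeo p K, g x = x := by
    intro g
    constructor
    · intro h x hx
      unfold Kgeo at hx
      induction hx using IntermediateField.adjoin_induction with
      | mem x hx => exact h x hx
      | algebraMap x => exact g.commutes x
      | add x y _ _ hx hy => rw [map_add, hx, hy]
      | inv x _ hx => rw [map_inv₀, hx]
      | mul x y _ _ hx hy => rw [map_mul, hx, hy]
    · intro h x hx
      exact h x (IntermediateField.subset_adjoin _ _ hx)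
  have p4 : ∀ (L : Type) [Field L] [Algebra K L] (ι : Kgs K →ₐ[K] L),
      (∀ c ∈ Cst p (Kgs K), ι c ∈ Cst p L) ∧ ∀ c ∈ Cst p L, ∃ c' ∈ Cst p (Kgs K), ι c' = c := by
    intro L _ _ ι
    constructor
    · rintro c ⟨n, hn, hc⟩
      exact ⟨n, hn, by rw [← map_pow, hc]⟩
    · rintro c ⟨n, hn, hc⟩
      obtain ⟨N, hN⟩ : ∃ N, N = p ^ n := ⟨_, rfl⟩
      have hN1 : 1 < N := by
        rw [hN]
        exact Nat.one_lt_pow (by omega) hp
      rw [← hN] at hc
      have hne : (X ^ N - X : L[X]) ≠ 0 := FiniteField.X_pow_card_sub_X_ne_zero _ hN1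
      have hnd : (X ^ N - X : L[X]).natDegree = N :=
        FiniteField.X_pow_card_sub_X_natDegree_eq _ hN1
      obtain ⟨A, hA⟩ : ∃ A : Set (Kgs K), A = {x | x ^ N = x} := ⟨_, rfl⟩
      have hAc : A.ncard = N := by
        rw [hA, hN]
        exact hcard n hn
      have hB : ((X ^ N - X : L[X]).roots.toFinset : Set L).ncard ≤ N := by
        rw [Set.ncard_coe_finset]
        refine (Multiset.toFinset_card_le _).trans ((card_roots' _).trans ?_)
        rw [hnd]
      have hsub : ι '' A ⊆ ((X ^ N - X : L[X]).roots.toFinset : Set L) := by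
        rintro _ ⟨x, hx, rfl⟩
        rw [hA] at hx
        have hx' : (ι x) ^ N = ι x := by
          rw [← map_pow]
          exact congrArg ι hx
        simp [hne, hx']
      have heq : ι '' A = ((X ^ N - X : L[X]).roots.toFinset : Set L) := by
        apply Set.eq_of_subset_of_ncard_le hsub
        have hinj : Function.Injective ι := ι.toRingHom.injective
        rw [Set.ncard_image_of_injective _ hinj, hAc]
        exact hB
      have hcr : c ∈ ((X ^ N - X : L[X]).roots.toFinset : Set L) := by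
        simp [hne, hc]
      rw [← heq] at hcr
      obtain ⟨c', hc', hcc⟩ := hcr
      rw [hA] at hc'
      exact ⟨c', ⟨n, hn, by rw [← hN]; exact hc'⟩, hcc⟩
  refine ⟨p2, p3, p4, ?_⟩
  intro L _ _ ι g σ hR
  obtain ⟨h1, h2⟩ := p4 L ι
  have hinj : Function.Injective ι := ι.toRingHom.injective
  constructor
  · constructor
    · intro h c hc
      apply hinj
      rw [← hR c]
      exact h _ (h1 c hc)
    · intro h c hc
      obtain ⟨c', hc', rfl⟩ := h2 c hc
      rw [hR c', h c' hc']
  · intro Q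
    constructor
    · intro h c hc
      apply hinj
      rw [← hR c, map_pow]
      exact h _ (h1 c hc)
    · intro h c hc
      obtain ⟨c', hc', rfl⟩ := h2 c hc
      rw [hR c', h c' hc', map_pow]

end Pool.Agent.MP72P
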