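import Pool.Agent.Lib.MP_72e2e6_nt.P3.C.Spec

/-!
# MP_72e2e6_nt, theorem T3p, part C: the completion
-/

namespace Pool.Agent.MP72P

open IntermediateField

section
variable {K : Type} [Field K] (v : AbsoluteValue K ℝ)

private theorem lc1_norm (x : K) : ‖algebraMap K v.Completion x‖ = v x :=
  UniformSpace.Completion.norm_coe (WithAbs.toAbs v x)

private theorem lc1_dense (x : v.Completion) (ε : ℝ) (hε : 0 < ε) :
    ∃ y : K, ‖x - algebraMap _ _ y‖ < ε := by
  obtain ⟨y, hy⟩ := (UniformSpace.Completion.denseRange_coe (α := WithAbs v)).exists_dist_lt x hε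
  exact ⟨y.ofAbs, by rw [← dist_eq_norm]; exact hy⟩

private theorem lc1_ultra (hna : IsNonarchimedean v) : IsUltrametricDist v.Completion := by
  refine IsUltrametricDist.isUltrametricDist_of_forall_norm_add_le_max_norm fun x y => ?_
  refine UniformSpace.Completion.induction_on₂ x y ?_ fun a b => ?_
  · exact isClosed_le (by fun_prop) (by fun_prop)
  · rw [← UniformSpace.Completion.coe_add, UniformSpace.Completion.norm_coe,
      UniformSpace.Completion.norm_coe, UniformSpace.Completion.norm_coe]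
    exact hna a.ofAbs b.ofAbs

end

section
variable {L : Type} [NormedField L] [CompleteSpace L] [IsUltrametricDist L] {p : ℕ}
  [Fact p.Prime] [CharP L p]

omit [CompleteSpace L] [IsUltrametricDist L] in
private theorem lc1_cont (n : ℕ) : Continuous (iterateFrobenius L p n) := by
  have : (iterateFrobenius L p n : L → L) = fun x => x ^ (p ^ n) := by
    funext x
    exact iterateFrobenius_def _ _ _
  rw [this]
  fun_prop

/-- Solution of `w = w ^ N + z`. -/
private theorem lc1_series (n : ℕ) (hn : 1 ≤ n) (z : L) (hz : ‖z‖ < 1) :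
    ∃ w : L, ‖w‖ < 1 ∧ w = w ^ (p ^ n) + z := by
  have hp : p.Prime := Fact.out
  have hN : 1 < p ^ n := Nat.one_lt_pow (by omega) hp.one_lt
  have hs : Summable (fun i : ℕ => z ^ ((p ^ n) ^ i)) := by
    refine Summable.of_norm_bounded (g := fun i => ‖z‖ ^ i)
      (summable_geometric_of_lt_one (norm_nonneg _) hz) fun i => ?_
    rw [norm_pow]
    exact pow_le_pow_of_le_one (norm_nonneg _) hz.le (Nat.lt_pow_self hN).le
  refine ⟨∑' i, z ^ ((p ^ n) ^ i), ?_, ?_⟩
  · refine lt_of_le_of_lt (IsUltrametricDist.norm_tsum_le_of_forall_le_of_nonneg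
      (norm_nonneg z) fun i => ?_) hz
    rw [norm_pow]
    exact (pow_le_pow_of_le_one (norm_nonneg _) hz.le
      (Nat.one_le_pow _ _ (by omega))).trans (pow_one _).le
  · have h1 := hs.map_tsum (iterateFrobenius L p n) (lc1_cont n)
    rw [iterateFrobenius_def] at h1
    rw [h1]
    conv_lhs => rw [hs.tsum_eq_zero_add]
    rw [pow_zero, pow_one, add_comm]
    congr 1
    refine tsum_congr fun i => ?_
    rw [iterateFrobenius_def, pow_succ (p ^ n) i, pow_mul]

/-- The terms of the solution of `w = w ^ p / h + z`. -/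
private def lc1T (p : ℕ) (h z : L) : ℕ → L
  | 0 => z
  | i + 1 => (lc1T p h z i) ^ p / h

/-- Solution of `w ^ p - h w = x`. -/
private theorem lc1_small (h x : L) (hh : h ≠ 0) (hx : (‖x‖ / ‖h‖) ^ (p - 1) ≤ ‖h‖ / 2) :
    ∃ w : L, w ^ p - h * w = x ∧ ‖w‖ * ‖h‖ = ‖x‖ := by
  have hp : p.Prime := Fact.out
  have hh0 : 0 < ‖h‖ := norm_pos_iff.2 hh
  obtain ⟨z, hz⟩ : ∃ z : L, z = -x / h := ⟨_, rfl⟩
  have hzn : ‖z‖ = ‖x‖ / ‖h‖ := by rw [hz, norm_div, norm_neg]
  rw [← hzn] at hx
  have hstep : ∀ y : L, ‖y‖ ≤ ‖z‖ → ‖y ^ p / h‖ ≤ ‖y‖ / 2 := by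
    intro y hy
    have h1 : ‖y‖ ^ (p - 1) ≤ ‖h‖ / 2 := (pow_le_pow_left₀ (norm_nonneg _) hy _).trans hx
    have h2 : ‖y ^ p / h‖ = ‖y‖ * (‖y‖ ^ (p - 1) / ‖h‖) := by
      rw [norm_div, norm_pow, ← mul_div_assoc, ← pow_succ', Nat.sub_add_cancel hp.one_le]
    rw [h2, div_eq_mul_one_div ‖y‖ 2]
    refine mul_le_mul_of_nonneg_left ?_ (norm_nonneg _)
    rw [div_le_iff₀ hh0]
    linarith
  have hT : ∀ i, ‖lc1T p h z i‖ ≤ ‖z‖ * (1 / 2) ^ i := by
    intro i
    induction i with
    | zero => simp [lc1T]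
    | succ i ih =>
      have h1 : ‖lc1T p h z i‖ ≤ ‖z‖ :=
        ih.trans (mul_le_of_le_one_right (norm_nonneg _) (pow_le_one₀ (by norm_num) (by norm_num)))
      have h2 := hstep _ h1
      rw [lc1T, pow_succ]
      linarith
  have hTz : ∀ i, ‖lc1T p h z i‖ ≤ ‖z‖ := fun i =>
    (hT i).trans (mul_le_of_le_one_right (norm_nonneg _) (pow_le_one₀ (by norm_num) (by norm_num)))
  have hs : Summable (lc1T p h z) := by
    refine Summable.of_norm_bounded (g := fun i => ‖z‖ * (1 / 2) ^ i) ?_ hT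
    exact (summable_geometric_of_lt_one (by norm_num) (by norm_num)).mul_left _
  obtain ⟨w, hw⟩ : ∃ w, w = ∑' i, lc1T p h z i := ⟨_, rfl⟩
  have hwz : ‖w‖ ≤ ‖z‖ := by
    rw [hw]
    exact IsUltrametricDist.norm_tsum_le_of_forall_le_of_nonneg (norm_nonneg z) hTz
  have he : w = z + w ^ p / h := by
    have h1 := hs.map_tsum (iterateFrobenius L p 1) (lc1_cont 1)
    rw [iterateFrobenius_def, pow_one, ← hw] at h1
    rw [h1, ← tsum_div_const]
    conv_lhs => rw [hw, hs.tsum_eq_zero_add]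
    congr 1
    refine tsum_congr fun i => ?_
    rw [iterateFrobenius_def, pow_one, lc1T]
  refine ⟨w, ?_, ?_⟩
  · have h1 : w ^ p / h * h = w ^ p := div_mul_cancel₀ _ hh
    have h2 : z * h = -x := by rw [hz, div_mul_cancel₀ _ hh]
    linear_combination (-h) * he - h1 + (-1 : L) * h2
  · have h1 : ‖w‖ = ‖z‖ := by
      by_cases hw0 : w = 0
      · have h2 : z = 0 := by
          rw [hw0, zero_pow hp.ne_zero, zero_div, add_zero] at he
          exact he.symm
        rw [hw0, h2]
      · have h2 : ‖w ^ p / h‖ < ‖w‖ :=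
          (hstep w hwz).trans_lt (half_lt_self (norm_pos_iff.2 hw0))
        have h3 : z = w + -(w ^ p / h) := by
          linear_combination (-1 : L) * he
        rw [h3, IsUltrametricDist.norm_add_eq_max_of_norm_ne_norm, norm_neg, max_eq_left h2.le]
        rw [norm_neg]
        exact h2.ne'
    rw [h1, hzn, div_mul_cancel₀ _ hh0.ne']

end

theorem tLc1 : S_Lc1 := by
  intro p _ K _ _ v Q ϖ R h
  have hp : p.Prime := Fact.out
  have hU : IsUltrametricDist v.Completion := lc1_ultra v h.na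
  have hC : CharP v.Completion p := charP_of_injective_algebraMap
    (algebraMap K v.Completion).injective p
  obtain ⟨n, hnd, hq⟩ := h.qp
  have hap : ∀ x : v.Completion, ‖x‖ ≤ 1 → ∃ y : K, v y ≤ 1 ∧
      ‖x - algebraMap _ _ y‖ < 1 := by
    intro x hx
    obtain ⟨y, hy⟩ := lc1_dense v x 1 one_pos
    refine ⟨y, ?_, hy⟩
    rw [← lc1_norm v y]
    have h1 : algebraMap K v.Completion y = x + -(x - algebraMap _ _ y) := by ring
    rw [h1]
    refine (IsUltrametricDist.norm_add_le_max _ _).trans (max_le hx ?_)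
    rw [norm_neg]
    exact hy.le
  have h6 : ∀ x : v.Completion, ‖x‖ ≤ 1 → ‖x ^ Q - x‖ < 1 := by
    intro x hx
    obtain ⟨y, hy1, hy⟩ := hap x hx
    have h1 := h.frob y hy1
    rw [← lc1_norm v, map_sub, map_pow] at h1
    have he : x ^ Q - x =
        (x - algebraMap _ _ y) ^ (p ^ n) +
        (((algebraMap K v.Completion y) ^ Q -
          algebraMap K v.Completion y) + -(x - algebraMap _ _ y)) := by
      rw [hq, sub_pow_char_pow]
      ring
    rw [he]
    refine (IsUltrametricDist.norm_add_le_max _ _).trans_lt (max_lt ?_ ?_)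
    · rw [norm_pow]
      exact pow_lt_one₀ (norm_nonneg _) hy (pow_pos hp.pos n).ne'
    · refine (IsUltrametricDist.norm_add_le_max _ _).trans_lt (max_lt h1 ?_)
      rw [norm_neg]
      exact hy
  refine ⟨lc1_norm v, lc1_dense v, hU, ?_, ?_, h6, hC, ?_, ?_, ?_, ?_⟩
  · intro x hx
    obtain ⟨y, hy⟩ := lc1_dense v x ‖x‖ (norm_pos_iff.2 hx)
    have h1 : algebraMap K v.Completion y = x + -(x - algebraMap _ _ y) := by ring
    have h2 : ‖algebraMap K v.Completion y‖ = ‖x‖ := by
      rw [h1, IsUltrametricDist.norm_add_eq_max_of_norm_ne_norm, norm_neg]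
      · exact max_eq_left hy.le
      · rw [norm_neg]
        exact hy.ne'
    rw [lc1_norm] at h2
    have hy0 : y ≠ 0 := by
      rintro rfl
      rw [map_zero] at h2
      exact hx (norm_eq_zero.1 h2.symm)
    rw [← h2]
    exact h.disc y hy0
  · intro x hx
    obtain ⟨y, hy1, hy⟩ := hap x hx
    obtain ⟨r, hr, hyr⟩ := h.cov y hy1
    refine ⟨r, hr, ?_⟩
    have h1 : x - algebraMap K v.Completion r =
        (x - algebraMap _ _ y) + algebraMap _ _ (y - r) := by
      rw [map_sub]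
      ring
    rw [h1]
    refine (IsUltrametricDist.norm_add_le_max _ _).trans_lt (max_lt hy ?_)
    rw [lc1_norm]
    exact hyr
  · intro x hx
    obtain ⟨w, hw, he⟩ := lc1_series (p := p) 1 le_rfl (-x) (by rwa [norm_neg])
    refine ⟨w, hw, ?_⟩
    rw [pow_one] at he
    linear_combination (-1 : v.Completion) * he
  · intro x hx
    obtain ⟨w, hw, he⟩ := lc1_series (p := p) n hnd (x ^ Q - x) (h6 x hx)
    refine ⟨x + w, ?_, ?_⟩
    · rw [hq, add_pow_char_pow]
      rw [hq] at he
      linear_combination (-1 : v.Completion) * he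
    · rw [sub_add_cancel_left, norm_neg]
      exact hw
  · intro y hy
    have hy1 : 1 < ‖y‖ := by
      by_contra hle
      rw [not_lt] at hle
      refine absurd hy (not_lt.2 ?_)
      rw [sub_eq_add_neg]
      refine (IsUltrametricDist.norm_add_le_max _ _).trans (max_le ?_ ?_)
      · rw [norm_pow]
        exact pow_le_one₀ (norm_nonneg _) hle
      · rwa [norm_neg]
    have hlt : ‖y‖ < ‖y ^ p‖ := by
      rw [norm_pow]
      exact lt_self_pow₀ hy1 hp.one_lt
    refine ⟨hy1, ?_⟩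
    rw [sub_eq_add_neg, IsUltrametricDist.norm_add_eq_max_of_norm_ne_norm, norm_neg,
      max_eq_left hlt.le, norm_pow]
    rw [norm_neg]
    exact hlt.ne'
  · intro h' hh'
    have hh0 : 0 < ‖h'‖ := norm_pos_iff.2 hh'
    refine ⟨min 1 (‖h'‖ / 2) * ‖h'‖, by positivity, fun x hx => ?_⟩
    obtain ⟨w, hw1, hw2⟩ := lc1_small (p := p) h' x hh' (by
      have h1 : ‖x‖ / ‖h'‖ ≤ min 1 (‖h'‖ / 2) := (div_le_iff₀ hh0).2 hx
      have h2 : 0 ≤ ‖x‖ / ‖h'‖ := by positivity
      have h3 : ‖x‖ / ‖h'‖ ≤ 1 := h1.trans (min_le_left _ _)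
      have h4 : p - 1 ≠ 0 := by
        have := hp.two_le
        omega
      exact (pow_le_of_le_one h2 h3 h4).trans (h1.trans (min_le_right _ _)))
    exact ⟨w, hw1, hw2⟩

end Pool.Agent.MP72P
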