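import Pool.Agent.Lib.MP_72e2e6_nt.P3.C.Spec

/-!
# MP_72e2e6_nt, theorem T3p, part C: the spectral norm on the separable closure
-/

namespace Pool.Agent.MP72P

open Polynomial IntermediateField

private theorem lc2_prod {L : Type} [Field L] (p : ℕ) [Fact p.Prime] [CharP L p] (θ : L) :
    ∏ c : ZMod p, (θ - ZMod.castHom (dvd_refl p) L c) = θ ^ p - θ := by
  have hp : p.Prime := Fact.out
  have hm : (X ^ p - X : (ZMod p)[X]).Monic := by
    refine (monic_X_pow p).sub_of_left ?_
    rw [degree_X, degree_X_pow]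
    exact_mod_cast hp.one_lt
  have hr : (X ^ p - X : (ZMod p)[X]).roots = Finset.univ.val := by
    have h1 := FiniteField.roots_X_pow_card_sub_X (ZMod p)
    rwa [ZMod.card] at h1
  have hd : (X ^ p - X : (ZMod p)[X]).natDegree = p :=
    FiniteField.X_pow_card_sub_X_natDegree_eq _ hp.one_lt
  have h := prod_multiset_X_sub_C_of_monic_of_roots_card_eq hm (by
    rw [hr, hd, ← Finset.card_def, Finset.card_univ, ZMod.card])
  rw [hr] at h
  have h2 : ∏ c : ZMod p, (X - C c : (ZMod p)[X]) = X ^ p - X := h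
  have h3 := congrArg (eval₂ (ZMod.castHom (dvd_refl p) L) θ) h2
  rw [eval₂_finsetProd] at h3
  simp only [eval₂_sub, eval₂_X, eval₂_C, eval₂_X_pow] at h3
  exact h3

private theorem lc2_root {L : Type} [Field L] (p : ℕ) [Fact p.Prime] [CharP L p] [IsSepClosed L]
    (x : L) : ∃ θ : L, θ ^ p - θ = x := by
  have hp : p.Prime := Fact.out
  have hder : derivative (X ^ p - X - C x : L[X]) = -1 := by
    simp [derivative_pow]
  have hsep : (X ^ p - X - C x : L[X]).Separable := by
    rw [separable_def, hder]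
    exact isCoprime_one_right.neg_right
  have hdeg : (X ^ p - X - C x : L[X]).degree ≠ 0 := by
    have h3 : (X ^ p - X - C x : L[X]).natDegree = p := by
      rw [sub_sub, natDegree_sub_eq_left_of_natDegree_lt, natDegree_X_pow]
      rw [natDegree_X_pow, natDegree_X_add_C]
      exact hp.one_lt
    intro h
    have h4 := natDegree_eq_of_degree_eq_some (n := 0) h
    have := hp.pos
    omega
  obtain ⟨θ, hθ⟩ := IsSepClosed.exists_root _ hdeg hsep
  refine ⟨θ, ?_⟩
  rw [IsRoot, eval_sub, eval_sub, eval_pow, eval_X, eval_C] at hθ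
  exact sub_eq_zero.mp hθ

theorem tLc2 : S_Lc1 → S_Lc2 := by
  intro hLc1 p _ K _ _ v Q ϖ R hLF
  have hp : p.Prime := Fact.out
  obtain ⟨hn, _, hult, _, _, _, hchar, _, _, _⟩ := hLc1 p K v Q ϖ R hLF
  have hcharK : CharP (Kvs v) p :=
    charP_of_injective_algebraMap (algebraMap v.Completion (Kvs v)).injective p
  have hne : ∃ x : v.Completion, x ≠ 0 ∧ ‖x‖ ≠ 1 := by
    refine ⟨algebraMap K v.Completion ϖ, ?_, ?_⟩
    · intro h
      have h1 := hn ϖ
      rw [h, norm_zero] at h1
      exact hLF.pi0.ne h1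
    · rw [hn]
      exact hLF.pi1.ne
  have hnn : ∀ x : Kvs v, 0 ≤ nm v x := fun x => spectralNorm_nonneg x
  have hext : ∀ x : v.Completion, nm v (algebraMap v.Completion (Kvs v) x) = ‖x‖ :=
    fun x => spectralNorm_extends x
  have hz : ∀ x : Kvs v, nm v x = 0 ↔ x = 0 := by
    intro x
    constructor
    · intro h
      exact eq_zero_of_map_spectralNorm_eq_zero h (Algebra.IsAlgebraic.isAlgebraic x)
    · rintro rfl
      have h1 := hext 0
      rw [map_zero, norm_zero] at h1
      exact h1
  have hmul : ∀ x y : Kvs v, nm v (x * y) = nm v x * nm v y := by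
    let _ : NontriviallyNormedField v.Completion := NontriviallyNormedField.ofNormNeOne hne
    intro x y
    exact spectralAlgNorm_mul (K := v.Completion) (L := Kvs v) x y
  have hadd : ∀ x y : Kvs v, nm v (x + y) ≤ max (nm v x) (nm v y) := fun x y =>
    isNonarchimedean_spectralNorm (K := v.Completion) (L := Kvs v) x y
  have hgal : ∀ (g : Gal(Kvs v/v.Completion)) (x : Kvs v), nm v (g x) = nm v x := fun g x =>
    (spectralNorm_eq_of_equiv g x).symm
  have hone : nm v 1 = 1 := by
    have h1 := hext 1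
    rw [map_one, norm_one] at h1
    exact h1
  have hpow : ∀ (x : Kvs v) (n : ℕ), nm v (x ^ n) = nm v x ^ n := by
    intro x n
    induction n with
    | zero => rw [pow_zero, pow_zero, hone]
    | succ n ih => rw [pow_succ, pow_succ, hmul, ih]
  have hneg : ∀ x : Kvs v, nm v (-x) = nm v x := by
    intro x
    have h1 : nm v (-1) = 1 := by
      have h2 := hext (-1)
      rw [map_neg, map_one, norm_neg, norm_one] at h2
      exact h2
    rw [← neg_one_mul, hmul, h1, one_mul]
  have hprod : ∀ (s : Finset (ZMod p)) (f : ZMod p → Kvs v),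
      nm v (∏ c ∈ s, f c) = ∏ c ∈ s, nm v (f c) := by
    intro s f
    classical
    induction s using Finset.induction_on with
    | empty => rw [Finset.prod_empty, Finset.prod_empty, hone]
    | insert c s hc ih => rw [Finset.prod_insert hc, Finset.prod_insert hc, hmul, ih]
  have hcst : ∀ x ∈ Cst p (Kvs v), x ≠ 0 → nm v x = 1 := by
    rintro x ⟨n, hn1, hx⟩ hx0
    have hQ : 1 < p ^ n := Nat.one_lt_pow (by omega) hp.one_lt
    have h1 : nm v x ^ (p ^ n) = nm v x := by rw [← hpow, hx]
    have hpos : 0 < nm v x := lt_of_le_of_ne (hnn x) fun h => hx0 ((hz x).mp h.symm)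
    obtain ⟨N, hN⟩ : ∃ N, p ^ n = N + 2 := ⟨p ^ n - 2, by omega⟩
    rw [hN, pow_succ] at h1
    have h2 : nm v x ^ (N + 1) = 1 := by
      have h3 : nm v x ^ (N + 1) * nm v x = 1 * nm v x := by rw [h1, one_mul]
      exact mul_right_cancel₀ hpos.ne' h3
    exact (pow_eq_one_iff_of_nonneg hpos.le (by omega)).mp h2
  refine ⟨hnn, hz, hmul, hadd, hext, hgal, hcst, ?_, ?_, hcharK⟩
  · intro x hx
    obtain ⟨θ, hθ⟩ := lc2_root p x
    by_contra hcon
    push Not at hcon
    have h1 : ∀ c : ZMod p, 1 ≤ nm v (θ - ZMod.castHom (dvd_refl p) (Kvs v) c) := by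
      intro c
      by_contra hlt
      push Not at hlt
      refine hcon _ hlt ?_
      have h2 : (ZMod.castHom (dvd_refl p) (Kvs v) c) ^ p = ZMod.castHom (dvd_refl p) (Kvs v) c := by
        rw [← map_pow, ZMod.pow_card]
      rw [sub_pow_char, h2, ← hθ]
      ring
    have h2 := hprod Finset.univ fun c => θ - ZMod.castHom (dvd_refl p) (Kvs v) c
    rw [lc2_prod, hθ] at h2
    have h3 : ∏ _c : ZMod p, (1 : ℝ) ≤
        ∏ c : ZMod p, nm v (θ - ZMod.castHom (dvd_refl p) (Kvs v) c) :=
      Finset.prod_le_prod (fun _ _ => zero_le_one) fun c _ => h1 c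
    rw [Finset.prod_const_one] at h3
    linarith
  · intro θ θ' h h' he
    by_contra hne'
    have h1 : nm v (θ - θ') = 1 := by
      refine hcst _ ⟨1, le_rfl, ?_⟩ (sub_ne_zero.2 hne')
      rw [pow_one, sub_pow_char]
      linear_combination he
    have h2 : nm v (θ - θ') < 1 := by
      rw [sub_eq_add_neg]
      refine (hadd _ _).trans_lt (max_lt h ?_)
      rw [hneg]
      exact h'
    exact absurd h1 h2.ne

end Pool.Agent.MP72P
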