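import Pool.Agent.Lib.MP_72e2e6_nt.P3.C.Spec

/-!
# MP_72e2e6_nt, T3p, part C: the maximal unramified extension
-/

namespace Pool.Agent.MP72P

open Polynomial IntermediateField

private theorem Nr_root {L : Type} [Field L] [IsSepClosed L] (N : L → ℝ) (h1 : N 1 = 1)
    (hm : ∀ x y, N (x * y) = N x * N y) {m : ℕ} (hm0 : (m : L) ≠ 0) (u : L)
    (h : N (u ^ m - 1) < 1) : ∃ ξ : L, ξ ^ m = 1 ∧ N (u - ξ) < 1 := by
  by_contra hno
  push Not at hno
  have hmn : m ≠ 0 := by
    rintro rfl
    exact hm0 Nat.cast_zero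
  have hmon : (X ^ m - 1 : L[X]).Monic := monic_X_pow_sub_C 1 hmn
  have hspl := IsSepClosed.splits_of_separable _ (X_pow_sub_one_separable_iff.2 hm0)
  have hev := hspl.eval_eq_prod_roots_of_monic hmon u
  rw [eval_sub, eval_pow, eval_X, eval_one] at hev
  have hroots : ∀ ξ ∈ (X ^ m - 1 : L[X]).roots, ξ ^ m = 1 := by
    intro ξ hξ
    rw [mem_roots hmon.ne_zero, IsRoot, eval_sub, eval_pow, eval_X, eval_one, sub_eq_zero] at hξ
    exact hξ
  have key : ∀ s : Multiset L, (∀ ξ ∈ s, ξ ^ m = 1) → 1 ≤ N ((s.map fun ξ => u - ξ).prod) := by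
    intro s
    induction s using Multiset.induction_on with
    | empty =>
      intro _
      rw [Multiset.map_zero, Multiset.prod_zero, h1]
    | cons a s ih =>
      intro hs
      rw [Multiset.map_cons, Multiset.prod_cons, hm]
      have e1 := hno a (hs a (Multiset.mem_cons_self a s))
      have e2 := ih fun ξ hξ => hs ξ (Multiset.mem_cons_of_mem hξ)
      nlinarith
  have := key _ hroots
  rw [← hev] at this
  linarith

theorem tNr (hLc1 : S_Lc1) (hLc2 : S_Lc2) (hCst : S_Cst) : S_Nr := by
  classical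
  intro p _ K _ _ v Q ϖ R hLF
  obtain ⟨hn, _, hult, hdisc, _, l6, hchar, h8, h9, _, _⟩ := hLc1 p K v Q ϖ R hLF
  obtain ⟨n0, nz, nmul, nadd, next, ngal, ncst, nas, nuni, hcharK⟩ := hLc2 p K v Q ϖ R hLF
  obtain ⟨r, hr, hQ⟩ := hLF.qp
  have hp1 : 1 < p := (Fact.out : p.Prime).one_lt
  obtain ⟨c1, c2, c3, c4, c5, c6, -, -⟩ := hCst p (Kvs v)
  have none1 : nm v 1 = 1 := by
    have h1 := next 1
    rw [map_one, norm_one] at h1
    exact h1
  -- the constants
  let S : Subring (Kvs v) :=
    { carrier := Cst p (Kvs v)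
      mul_mem' := fun ha hb => (c3 _ ha _ hb).2.1
      one_mem' := c2
      add_mem' := fun ha hb => (c3 _ ha _ hb).1
      zero_mem' := c1
      neg_mem' := fun {a} ha => by
        have h1 := (c3 0 c1 a ha).2.2
        rw [zero_sub] at h1
        exact h1 }
  have hS : ∀ x, x ∈ S ↔ x ∈ Cst p (Kvs v) := fun _ => Iff.rfl
  have ncle : ∀ x ∈ S, nm v x ≤ 1 := by
    intro x hx
    by_cases hx0 : x = 0
    · rw [hx0, (nz 0).mpr rfl]
      exact zero_le_one
    · exact (ncst x hx hx0).le
  have nneg : ∀ x, nm v (-x) = nm v x := by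
    intro x
    have h1 : nm v (-1) = 1 := ncst (-1) (show (-1 : Kvs v) ∈ S from neg_mem c2)
      (neg_ne_zero.2 one_ne_zero)
    rw [← neg_one_mul, nmul, h1, one_mul]
  have nsub : ∀ x y, nm v (x - y) ≤ max (nm v x) (nm v y) := by
    intro x y
    have h1 := nadd x (-y)
    rw [← sub_eq_add_neg, nneg] at h1
    exact h1
  have cst0 : ∀ x ∈ S, nm v x < 1 → x = 0 := by
    intro x hx hlt
    by_contra hx0
    rw [ncst x hx hx0] at hlt
    exact lt_irrefl _ hlt
  -- (7)
  have h7 : ∀ x : v.Completion, algebraMap v.Completion (Kvs v) x ∈ Cst p (Kvs v) →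
      x ^ Q = x := by
    intro x hx
    have hle : ‖x‖ ≤ 1 := by
      rw [← next]
      exact ncle _ hx
    have hlt := l6 x hle
    have hmem : algebraMap v.Completion (Kvs v) (x ^ Q - x) ∈ S := by
      rw [map_sub, map_pow]
      exact sub_mem (pow_mem (show _ ∈ S from hx) _) hx
    by_contra hne
    have hne' : algebraMap v.Completion (Kvs v) (x ^ Q - x) ≠ 0 := by
      intro h
      refine hne (sub_eq_zero.mp ((algebraMap v.Completion (Kvs v)).injective ?_))
      rw [h, map_zero]
    have h1 := ncst _ hmem hne'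
    rw [next] at h1
    rw [h1] at hlt
    exact lt_irrefl _ hlt
  have hcst : ∀ c : v.Completion, c ^ Q = c → algebraMap v.Completion (Kvs v) c ∈ S := by
    intro c hc
    exact ⟨r, hr, by rw [← map_pow, ← hQ, hc]⟩
  -- sums
  have nsum : ∀ (ι : Type) (s : Finset ι) (f : ι → Kvs v), (∀ i ∈ s, nm v (f i) < 1) →
      nm v (∑ i ∈ s, f i) < 1 := by
    intro ι s f
    induction s using Finset.induction_on with
    | empty =>
      intro _
      rw [Finset.sum_empty, (nz 0).mpr rfl]
      exact zero_lt_one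
    | insert a s ha ih =>
      intro h
      rw [Finset.sum_insert ha]
      exact lt_of_le_of_lt (nadd _ _) (max_lt (h a (Finset.mem_insert_self a s))
        (ih fun i hi => h i (Finset.mem_insert_of_mem hi)))
  -- a basis
  obtain ⟨B, hBS, hBspan, hBind⟩ := exists_linearIndependent v.Completion
    (Cst p (Kvs v))
  have hspan : ∀ x ∈ Knr p v, x ∈ Submodule.span v.Completion B := by
    intro x hx
    rw [hBspan]
    have h1 : x ∈ (adjoin v.Completion (Cst p (Kvs v))).toSubalgebra := hx
    rw [IntermediateField.adjoin_toSubalgebra_of_isAlgebraic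
      (fun y _ => Algebra.IsAlgebraic.isAlgebraic y)] at h1
    have h2 : x ∈ Subalgebra.toSubmodule
        (Algebra.adjoin v.Completion (Cst p (Kvs v))) := h1
    rw [Algebra.adjoin_eq_span] at h2
    refine Submodule.span_mono ?_ h2
    have h3 : Submonoid.closure (Cst p (Kvs v)) ≤ S.toSubmonoid :=
      Submonoid.closure_le.mpr fun _ h => h
    exact h3
  -- the main claim
  have hmain : ∀ x ∈ Knr p v, x ≠ 0 → ∃ (f : B →₀ v.Completion) (b0 : B),
      Finsupp.linearCombination v.Completion ((↑) : B → Kvs v) f = x ∧ f b0 ≠ 0 ∧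
      (∀ b, ‖f b‖ ≤ ‖f b0‖) ∧ nm v x = ‖f b0‖ := by
    intro x hx hx0
    obtain ⟨f, hf⟩ := (Finsupp.mem_span_iff_linearCombination _ _ _).mp (hspan x hx)
    have hf0 : f ≠ 0 := by
      rintro rfl
      rw [map_zero] at hf
      exact hx0 hf.symm
    obtain ⟨b0, hb0, hmax⟩ := Finset.exists_max_image f.support (fun b => ‖f b‖)
      (Finsupp.support_nonempty_iff.mpr hf0)
    have hfb0 : f b0 ≠ 0 := Finsupp.mem_support_iff.mp hb0
    have hmax' : ∀ b, ‖f b‖ ≤ ‖f b0‖ := by
      intro b
      by_cases hb : b ∈ f.support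
      · exact hmax b hb
      · rw [Finsupp.notMem_support_iff.mp hb, norm_zero]
        exact norm_nonneg _
    refine ⟨f, b0, hf, hfb0, hmax', ?_⟩
    have hquo : ∀ b, ‖f b / f b0‖ ≤ 1 := by
      intro b
      rw [norm_div]
      exact div_le_one_of_le₀ (hmax' b) (norm_nonneg _)
    choose ρ hρ1 hρ2 using fun b => h9 _ (hquo b)
    have hρ0 : ρ b0 ≠ 0 := by
      intro h
      have h1 := hρ2 b0
      rw [h, sub_zero, div_self hfb0, norm_one] at h1
      exact lt_irrefl _ h1
    -- the constant
    have hcS : ∑ b ∈ f.support, algebraMap v.Completion (Kvs v) (ρ b) * (b : Kvs v) ∈ S :=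
      sum_mem fun b _ => mul_mem (hcst _ (hρ1 b)) (hBS b.2)
    have hc0 : ∑ b ∈ f.support, algebraMap v.Completion (Kvs v) (ρ b) * (b : Kvs v) ≠ 0 := by
      intro h
      have h1 := (linearIndependent_iff'.mp hBind) f.support ρ (by
        rw [← h]
        exact Finset.sum_congr rfl fun b _ => Algebra.smul_def _ _) b0 hb0
      exact hρ0 h1
    have hcn := ncst _ hcS hc0
    have hdiff : nm v (∑ b ∈ f.support,
        algebraMap v.Completion (Kvs v) (f b / f b0 - ρ b) * (b : Kvs v)) < 1 := by
      refine nsum _ _ _ fun b _ => ?_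
      rw [nmul, next]
      exact lt_of_le_of_lt (mul_le_of_le_one_right (norm_nonneg _) (ncle _ (hBS b.2))) (hρ2 b)
    have hsum : x = algebraMap v.Completion (Kvs v) (f b0) *
        (∑ b ∈ f.support, algebraMap v.Completion (Kvs v) (ρ b) * (b : Kvs v) +
          ∑ b ∈ f.support,
            algebraMap v.Completion (Kvs v) (f b / f b0 - ρ b) * (b : Kvs v)) := by
      rw [← hf, Finsupp.linearCombination_apply, Finsupp.sum, ← Finset.sum_add_distrib,
        Finset.mul_sum]
      refine Finset.sum_congr rfl fun b _ => ?_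
      rw [← add_mul, ← map_add, ← mul_assoc, ← map_mul, Algebra.smul_def]
      congr 2
      field_simp
      ring
    have hone : nm v (∑ b ∈ f.support, algebraMap v.Completion (Kvs v) (ρ b) * (b : Kvs v) +
          ∑ b ∈ f.support,
            algebraMap v.Completion (Kvs v) (f b / f b0 - ρ b) * (b : Kvs v)) = 1 := by
      generalize (∑ b ∈ f.support,
        algebraMap v.Completion (Kvs v) (f b / f b0 - ρ b) * (b : Kvs v)) = y at hdiff ⊢
      generalize (∑ b ∈ f.support,
        algebraMap v.Completion (Kvs v) (ρ b) * (b : Kvs v)) = c at hcn ⊢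
      refine le_antisymm ((nadd _ _).trans (max_le hcn.le hdiff.le)) ?_
      by_contra hlt
      push Not at hlt
      have h1 : nm v c < 1 := by
        have h2 : c = (c + y) - y := by ring
        rw [h2]
        exact lt_of_le_of_lt (nsub _ _) (max_lt hlt hdiff)
      rw [hcn] at h1
      exact lt_irrefl _ h1
    rw [hsum, nmul, next, hone, mul_one]
  have p1 : ∀ x ∈ Knr p v, x ≠ 0 → ∃ n : ℤ, nm v x = v ϖ ^ n := by
    intro x hx hx0
    obtain ⟨f, b0, -, hfb0, -, hnm⟩ := hmain x hx hx0
    obtain ⟨n, hn⟩ := hdisc _ hfb0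
    exact ⟨n, hnm.trans hn⟩
  have p2 : ∀ x ∈ Knr p v, nm v x ≤ 1 → ∃ c ∈ Cst p (Kvs v), nm v (x - c) < 1 := by
    intro x hx hx1
    by_cases hx0 : x = 0
    · refine ⟨0, c1, ?_⟩
      rw [hx0, sub_zero, (nz 0).mpr rfl]
      exact zero_lt_one
    · obtain ⟨f, b0, hf, -, hmax, hnm⟩ := hmain x hx hx0
      have hle : ∀ b, ‖f b‖ ≤ 1 := fun b => (hmax b).trans (hnm ▸ hx1)
      choose ρ hρ1 hρ2 using fun b => h9 _ (hle b)
      refine ⟨∑ b ∈ f.support, algebraMap v.Completion (Kvs v) (ρ b) * (b : Kvs v),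
        show _ ∈ S from sum_mem fun b _ => mul_mem (hcst _ (hρ1 b)) (hBS b.2), ?_⟩
      rw [← hf, Finsupp.linearCombination_apply, Finsupp.sum, ← Finset.sum_sub_distrib]
      refine nsum _ _ _ fun b _ => ?_
      rw [Algebra.smul_def, ← sub_mul, ← map_sub, nmul, next]
      exact lt_of_le_of_lt (mul_le_of_le_one_right (norm_nonneg _) (ncle _ (hBS b.2))) (hρ2 b)
  have p4 : ∀ x ∈ Cst p (Kvs v), x ∈ Knr p v := fun x hx =>
    IntermediateField.subset_adjoin _ _ hx
  have hfix : ∀ x : Kvs v, (∀ g : Gal(Kvs v/v.Completion), (∀ y ∈ Knr p v, g y = y) → g x = x) →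
      x ∈ Knr p v := by
    intro x hx
    rw [← InfiniteGalois.fixedField_fixingSubgroup (Knr p v),
      IntermediateField.mem_fixedField_iff]
    intro g hg
    exact hx g ((IntermediateField.mem_fixingSubgroup_iff _ _).mp hg)
  refine ⟨p1, p2, ?_, p4, ?_, ?_, h7, ?_, ?_⟩
  · -- (3)
    intro x hx hx1
    obtain ⟨c, hc, hxc⟩ := p2 x hx hx1
    have hmon : (X ^ p - (X + C c) : (Kvs v)[X]).Monic := by
      apply monic_X_pow_sub
      refine lt_of_le_of_lt (b := ((1 : ℕ) : WithBot ℕ)) ?_ (by exact_mod_cast hp1)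
      exact (degree_X_add_C c).le
    have hnd : (X ^ p - (X + C c) : (Kvs v)[X]).natDegree = p := by
      rw [natDegree_sub_eq_left_of_natDegree_lt, natDegree_X_pow]
      rw [natDegree_X_add_C, natDegree_X_pow]
      exact hp1
    have hcoe : ∀ i, (X ^ p - (X + C c) : (Kvs v)[X]).coeff i ∈ Cst p (Kvs v) := by
      intro i
      change _ ∈ S
      rw [coeff_sub, coeff_add, coeff_X_pow, coeff_X, coeff_C]
      refine sub_mem ?_ (add_mem ?_ ?_)
      · split_ifs
        · exact one_mem S
        · exact zero_mem S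
      · split_ifs
        · exact one_mem S
        · exact zero_mem S
      · split_ifs
        · exact hc
        · exact zero_mem S
    obtain ⟨θ₁, hθ₁S, hθ₁⟩ := c6 _ hmon (by rw [hnd]; exact hp1.le) hcoe
    rw [eval_sub, eval_add, eval_pow, eval_X, eval_C] at hθ₁
    have hθ₁K := p4 _ hθ₁S
    obtain ⟨θ₂, hθ₂n, hθ₂⟩ := nas _ hxc
    have hθ₂K : θ₂ ∈ Knr p v := by
      refine hfix θ₂ fun g hg => ?_
      have h3 : g (x - c) = x - c := hg _ (sub_mem hx (p4 c hc))
      refine nuni _ _ (by rw [ngal]; exact hθ₂n) hθ₂n ?_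
      rw [← map_pow, ← map_sub, hθ₂, h3]
    refine ⟨θ₁ + θ₂, add_mem hθ₁K hθ₂K, ?_⟩
    rw [add_pow_char]
    linear_combination hθ₁ + hθ₂
  · -- (5)
    intro x k hx
    refine hfix x fun g hg => ?_
    have h1 : (g x) ^ p ^ k = x ^ p ^ k := by
      rw [← map_pow]
      exact hg _ hx
    have h2 : (g x - x) ^ p ^ k = 0 := by
      rw [sub_pow_char_pow, h1, sub_self]
    exact sub_eq_zero.mp (pow_eq_zero_iff (pow_pos (by omega) k).ne' |>.mp h2)
  · -- (6)
    intro g
    constructor
    · intro hg x hx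
      induction hx using IntermediateField.adjoin_induction with
      | mem x hx => exact hg x hx
      | algebraMap x => exact g.commutes x
      | add x y _ _ hx hy => rw [map_add, hx, hy]
      | inv x _ hx => rw [map_inv₀, hx]
      | mul x y _ _ hx hy => rw [map_mul, hx, hy]
    · intro hg x hx
      exact hg x (p4 x hx)
  · -- (8)
    intro x y m hx hx1 hpm hy
    have hm0 : (m : Kvs v) ≠ 0 := by
      rw [Ne, CharP.cast_eq_zero_iff (Kvs v) p m]
      exact hpm
    have hmn : m ≠ 0 := by
      rintro rfl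
      exact hpm (dvd_zero p)
    obtain ⟨c, hc, hxc⟩ := p2 x hx hx1.le
    have hc0 : c ≠ 0 := by
      rintro rfl
      rw [sub_zero, hx1] at hxc
      exact lt_irrefl _ hxc
    have hnd : (X ^ m - C c : (Kvs v)[X]).natDegree = m := natDegree_X_pow_sub_C
    have hcoe : ∀ i, (X ^ m - C c : (Kvs v)[X]).coeff i ∈ Cst p (Kvs v) := by
      intro i
      change _ ∈ S
      rw [coeff_sub, coeff_X_pow, coeff_C]
      refine sub_mem ?_ ?_
      · split_ifs
        · exact one_mem S
        · exact zero_mem S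
      · split_ifs
        · exact hc
        · exact zero_mem S
    obtain ⟨d, hdS, hd⟩ := c6 _ (monic_X_pow_sub_C c hmn)
      (by rw [hnd]; exact Nat.one_le_iff_ne_zero.2 hmn) hcoe
    rw [eval_sub, eval_pow, eval_X, eval_C, sub_eq_zero] at hd
    have hd0 : d ≠ 0 := by
      rintro rfl
      rw [zero_pow hmn] at hd
      exact hc0 hd.symm
    have hum : (y / d) ^ m = x / c := by rw [div_pow, hy, hd]
    have hcn : nm v c⁻¹ = 1 := ncst _ (c4 c hc) (inv_ne_zero hc0)
    have hun : nm v ((y / d) ^ m - 1) < 1 := by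
      have h1 : (y / d) ^ m - 1 = (x - c) * c⁻¹ := by
        rw [hum]
        field_simp
      rw [h1, nmul, hcn, mul_one]
      exact hxc
    obtain ⟨ξ, hξ, hξn⟩ := Nr_root (nm v) none1 nmul hm0 (y / d) hun
    have hroot : ∀ ξ : Kvs v, ξ ^ m = 1 → ξ ∈ Cst p (Kvs v) := by
      intro ξ hξ
      have hcoe1 : ∀ i, (X ^ m - C 1 : (Kvs v)[X]).coeff i ∈ Cst p (Kvs v) := by
        intro i
        change _ ∈ S
        rw [coeff_sub, coeff_X_pow, coeff_C]
        refine sub_mem ?_ ?_
        · split_ifs
          · exact one_mem S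
          · exact zero_mem S
        · split_ifs
          · exact one_mem S
          · exact zero_mem S
      refine c5 _ ξ (monic_X_pow_sub_C 1 hmn) hcoe1 ?_
      rw [eval_sub, eval_pow, eval_X, eval_C, hξ, sub_self]
    have hξ0 : ξ ≠ 0 := by
      rintro rfl
      rw [zero_pow hmn] at hξ
      exact zero_ne_one hξ
    have hξS := hroot ξ hξ
    obtain ⟨u, hu⟩ : ∃ u, u = y / d / ξ := ⟨_, rfl⟩
    have hu1 : nm v (u - 1) < 1 := by
      have h1 : u - 1 = (y / d - ξ) * ξ⁻¹ := by
        rw [hu]
        field_simp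
      rw [h1, nmul, ncst _ (c4 ξ hξS) (inv_ne_zero hξ0), mul_one]
      exact hξn
    have hunm : nm v u = 1 := by
      have h1 : u = (u - 1) + 1 := by ring
      refine le_antisymm ?_ ?_
      · rw [h1]
        exact (nadd _ _).trans (max_le hu1.le none1.le)
      · by_contra hlt
        push Not at hlt
        have h2 : (1 : Kvs v) = u - (u - 1) := by ring
        have h3 : nm v 1 < 1 := by
          rw [h2]
          exact lt_of_le_of_lt (nsub _ _) (max_lt hlt hu1)
        rw [none1] at h3
        exact lt_irrefl _ h3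
    have hu0 : u ≠ 0 := by
      rintro rfl
      rw [(nz 0).2 rfl] at hunm
      exact zero_ne_one hunm
    have hupow : u ^ m = x / c := by
      rw [hu, div_pow, hξ, div_one, hum]
    have huK : u ∈ Knr p v := by
      refine hfix u fun g hg => ?_
      have h1 : (g u) ^ m = u ^ m := by
        rw [← map_pow]
        refine hg _ ?_
        rw [hupow]
        exact div_mem hx (p4 c hc)
      have h2 : (g u / u) ^ m = 1 := by
        rw [div_pow, h1, div_self (pow_ne_zero m hu0)]
      have h3 := hroot _ h2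
      have h4 : nm v (g u - u) < 1 := by
        have e1 : g u - u = (g (u - 1)) - (u - 1) := by
          rw [map_sub, map_one]
          ring
        rw [e1]
        refine lt_of_le_of_lt (nsub _ _) (max_lt ?_ hu1)
        rw [ngal]
        exact hu1
      have h5 : g u / u - 1 = 0 := by
        refine cst0 _ (sub_mem (show _ ∈ S from h3) (one_mem S)) ?_
        have e1 : g u - u = (g u / u - 1) * u := by
          field_simp
        rw [e1, nmul, hunm, mul_one] at h4
        exact h4
      rw [sub_eq_zero, div_eq_one_iff_eq hu0] at h5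
      exact h5
    have hyy : y = u * ξ * d := by
      rw [hu]
      field_simp
    rw [hyy]
    exact mul_mem (mul_mem huK (p4 ξ hξS)) (p4 d hdS)
  · -- (9)
    have hϖ : v ϖ ≠ 0 := hLF.pi0.ne'
    have hϖ0 : ϖ ≠ 0 := by
      rintro rfl
      rw [map_zero] at hϖ
      exact hϖ rfl
    obtain ⟨w, hw⟩ : ∃ w : v.Completion, w = algebraMap K v.Completion ϖ := ⟨_, rfl⟩
    have hwn : ‖w‖ = v ϖ := by rw [hw, hn]
    have hw0 : w ≠ 0 := by
      rintro rfl
      rw [norm_zero] at hwn
      exact hϖ hwn.symm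
    have key : ∀ n : ℕ, ∀ x ∈ Knr p v, (∀ g : Gal(Kvs v/v.Completion), nm v (g x - x) ≤ 1) →
        nm v x ≤ (v ϖ ^ n)⁻¹ →
        ∃ y : v.Completion, nm v (x - algebraMap v.Completion (Kvs v) y) ≤ 1 := by
      intro n
      induction n with
      | zero =>
        intro x _ _ h
        refine ⟨0, ?_⟩
        rw [map_zero, sub_zero]
        rw [pow_zero, inv_one] at h
        exact h
      | succ n ih =>
        intro x hx hg h
        obtain ⟨t, ht⟩ : ∃ t : Kvs v, t = algebraMap v.Completion (Kvs v) (w ^ (n + 1)) :=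
          ⟨_, rfl⟩
        have htn : nm v t = v ϖ ^ (n + 1) := by rw [ht, next, norm_pow, hwn]
        have ht0 : t ≠ 0 := by
          rw [ht, Ne, map_eq_zero]
          exact pow_ne_zero _ hw0
        have htK : t ∈ Knr p v := by
          rw [ht]
          exact (Knr p v).algebraMap_mem _
        have hpos : (0 : ℝ) < v ϖ ^ (n + 1) := pow_pos hLF.pi0 _
        have hz : nm v (t * x) ≤ 1 := by
          rw [nmul, htn]
          refine (mul_le_mul_of_nonneg_left h hpos.le).trans ?_
          rw [mul_inv_cancel₀ hpos.ne']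
        obtain ⟨c, hc, hzc⟩ := p2 (t * x) (mul_mem htK hx) hz
        have hcf : ∀ g : Gal(Kvs v/v.Completion), g c = c := by
          intro g
          have hgt : g t = t := by
            rw [ht]
            exact g.commutes _
          have hgc : g c ∈ S := by
            obtain ⟨k, hk, hk'⟩ := hc
            exact ⟨k, hk, by rw [← map_pow, hk']⟩
          have h1 : g c - c = (t * (g x - x)) - (g (t * x - c) - (t * x - c)) := by
            rw [map_sub, map_mul, hgt]
            ring
          have h2 : nm v (g c - c) < 1 := by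
            rw [h1]
            refine lt_of_le_of_lt (nsub _ _) (max_lt ?_ ?_)
            · rw [nmul, htn]
              refine lt_of_le_of_lt (mul_le_of_le_one_right hpos.le (hg g)) ?_
              exact pow_lt_one₀ hLF.pi0.le hLF.pi1 (Nat.succ_ne_zero n)
            · refine lt_of_le_of_lt (nsub _ _) (max_lt ?_ hzc)
              rw [ngal]
              exact hzc
          exact sub_eq_zero.1 (cst0 _ (sub_mem hgc hc) h2)
        obtain ⟨c', hc'⟩ := (InfiniteGalois.mem_range_algebraMap_iff_fixed c).2 hcf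
        obtain ⟨x', hx'⟩ : ∃ x' : Kvs v, x' = x - c / t := ⟨_, rfl⟩
        have hx'K : x' ∈ Knr p v := by
          rw [hx']
          exact sub_mem hx (div_mem (p4 c hc) htK)
        have hx'n : nm v x' < (v ϖ ^ (n + 1))⁻¹ := by
          have e1 : t * x' = t * x - c := by
            rw [hx']
            field_simp
          rw [← e1, nmul, htn] at hzc
          by_contra hge
          push Not at hge
          have e2 := mul_le_mul_of_nonneg_left hge hpos.le
          rw [mul_inv_cancel₀ hpos.ne'] at e2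
          exact absurd hzc (not_lt.2 e2)
        have hx'g : ∀ g : Gal(Kvs v/v.Completion), nm v (g x' - x') ≤ 1 := by
          intro g
          have hgt : g t = t := by
            rw [ht]
            exact g.commutes _
          have e1 : g x' - x' = g x - x := by
            rw [hx', map_sub, map_div₀, hgt, hcf g]
            ring
          rw [e1]
          exact hg g
        have hx'le : nm v x' ≤ (v ϖ ^ n)⁻¹ := by
          by_cases hx'0 : x' = 0
          · rw [hx'0, (nz 0).2 rfl]
            exact inv_nonneg.2 (pow_nonneg hLF.pi0.le n)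
          · obtain ⟨k, hk⟩ := p1 x' hx'K hx'0
            have e1 : (v ϖ ^ (n + 1))⁻¹ = v ϖ ^ (-((n : ℤ) + 1)) := by
              rw [zpow_neg]
              congr 1
            have e2 : (v ϖ ^ n)⁻¹ = v ϖ ^ (-(n : ℤ)) := by
              rw [zpow_neg, zpow_natCast]
            rw [hk, e1, zpow_lt_zpow_iff_right_of_lt_one₀ hLF.pi0 hLF.pi1] at hx'n
            rw [hk, e2, zpow_le_zpow_iff_right_of_lt_one₀ hLF.pi0 hLF.pi1]
            omega
        obtain ⟨y, hy⟩ := ih x' hx'K hx'g hx'le
        refine ⟨y + c' / w ^ (n + 1), ?_⟩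
        have e1 : x - algebraMap v.Completion (Kvs v) (y + c' / w ^ (n + 1)) =
            x' - algebraMap v.Completion (Kvs v) y := by
          rw [map_add, map_div₀, hc', ← ht, hx']
          ring
        rw [e1]
        exact hy
    intro x hx hg
    obtain ⟨n, hn'⟩ : ∃ n : ℕ, nm v x ≤ (v ϖ ^ n)⁻¹ := by
      have e0 : 0 < nm v x + 1 := by
        have := n0 x
        linarith
      obtain ⟨n, hn'⟩ := exists_pow_lt_of_lt_one (inv_pos.2 e0) hLF.pi1
      refine ⟨n, ?_⟩
      have e1 : nm v x + 1 ≤ (v ϖ ^ n)⁻¹ := by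
        rw [le_inv_comm₀ e0 (pow_pos hLF.pi0 n)]
        exact hn'.le
      linarith
    exact key n x hx hg hn'

end Pool.Agent.MP72P
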