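import Pool.Agent.Lib.MP_72e2e6_nt.P3.C.Spec

/-!
# MP_72e2e6_nt, theorem T3p, part C: local crossed homomorphisms
-/

namespace Pool.Agent.MP72P

open IntermediateField

/-- A crossed homomorphism which vanishes on the kernel of the character is a coboundary. -/
private theorem lcl_abs {p : ℕ} [Fact p.Prime] {Γ : Type} [Group Γ] (ω H : Γ → ZMod p)
    (h1 : ω 1 = 1) (hm : ∀ a b, ω (a * b) = ω a * ω b) (hH : ∀ a b, H (a * b) = H a + ω a * H b)
    (h0 : ∀ g, ω g = 1 → H g = 0) : ∃ c, ∀ g, H g = c - ω g * c := by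
  by_cases hσ : ∃ σ, ω σ ≠ 1
  · obtain ⟨σ, hσ⟩ := hσ
    have hσ' : 1 - ω σ ≠ 0 := fun h => hσ (sub_eq_zero.1 h).symm
    have hinv : ∀ g, ω g⁻¹ * ω g = 1 := fun g => by rw [← hm, inv_mul_cancel, h1]
    refine ⟨H σ / (1 - ω σ), fun g => ?_⟩
    have hn : ω (g⁻¹ * σ⁻¹ * g * σ) = 1 := by
      rw [hm, hm, hm]
      linear_combination (ω σ⁻¹ * ω σ) * hinv g + hinv σ
    have e : g * σ = σ * g * (g⁻¹ * σ⁻¹ * g * σ) := by group
    have h2 : H (g * σ) = H (σ * g) := by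
      rw [e, hH (σ * g), h0 _ hn, mul_zero, add_zero]
    rw [hH, hH] at h2
    field_simp
    linear_combination h2
  · push Not at hσ
    exact ⟨0, fun g => by rw [h0 g (hσ g), mul_zero, sub_zero]⟩

theorem tLcl (hL : S_Lc1) (hH : S_Has) (hS : S_Sep) : S_Lcl := by
  intro p _ K _ _ v Q ϖ R hLF α h hα hαh
  obtain ⟨-, hdens, -, -, -, -, hchar, -, -, -, hPh⟩ := hL p K v Q ϖ R hLF
  have : CharP v.Completion p := hchar
  obtain ⟨⟨hom, -⟩, -, -, hadd, hcob, -⟩ := hH p v.Completion (Kvs v) α h hα hαh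
  obtain ⟨-, hex, hsep⟩ := hS p v.Completion α h hα hαh
  have hh : h ≠ 0 := by
    rintro rfl
    rw [map_zero] at hαh
    exact pow_ne_zero _ hα hαh
  have hex' : ∀ f : v.Completion, ∃ x : Kvs v,
      Ph p (algebraMap v.Completion (Kvs v) h) x = algebraMap v.Completion (Kvs v) f := by
    intro f
    rw [← hαh]
    exact hex _
  obtain ⟨ρ, hρ, hρ'⟩ := hPh h hh
  have h2 : ∀ f : v.Completion, ‖f‖ ≤ ρ → ∃ c : ZMod p,
      ∀ g : Gal(Kvs v/v.Completion), hP p α f g = c - omc p α g * c := by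
    intro f hf
    obtain ⟨y, hy, -⟩ := hρ' f hf
    exact (hcob f (hex' f)).2 ⟨y, hy⟩
  refine ⟨fun f => hex _, ⟨ρ, hρ, h2⟩, fun H hHc => ?_, fun H hHc h0 => ?_⟩
  · obtain ⟨f', c, hf'⟩ := hsep H hHc
    obtain ⟨f, hf⟩ := hdens f' ρ hρ
    obtain ⟨c₁, hc₁⟩ := hadd (algebraMap K v.Completion f) (f' - algebraMap K v.Completion f)
      (hex' _) (hex' _)
    obtain ⟨c₂, hc₂⟩ := h2 (f' - algebraMap K v.Completion f) hf.le
    refine ⟨f, c + c₁ + c₂, fun g => ?_⟩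
    have h3 := hc₁ g
    rw [add_sub_cancel, hc₂ g] at h3
    rw [hf' g, h3]
    ring
  · exact lcl_abs _ H hom.one hom.mul hHc.mul h0

end Pool.Agent.MP72P
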