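import Pool.Agent.Lib.MP_72e2e6_nt.P3.C.Spec

/-!
# MP_72e2e6_nt, theorem T3p, part C: the local subgroup `W` and the elements `e j`
-/

set_option autoImplicit false

namespace Pool.Agent.MP72P

namespace LwAux

section coc

variable {p : ℕ} {Γ : Type} [Group Γ] [TopologicalSpace Γ] {ω : Γ → ZMod p}

private theorem coc_add {a b : Γ → ZMod p} (ha : Coc (fun g (x : ZMod p) => ω g * x) a)
    (hb : Coc (fun g (x : ZMod p) => ω g * x) b) :
    Coc (fun g (x : ZMod p) => ω g * x) (a + b) := by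
  refine ⟨ha.loc.add hb.loc, fun g h => ?_⟩
  have h1 := ha.mul g h
  have h2 := hb.mul g h
  simp only [Pi.add_apply] at *
  rw [h1, h2]; ring

private theorem coc_neg {a : Γ → ZMod p} (ha : Coc (fun g (x : ZMod p) => ω g * x) a) :
    Coc (fun g (x : ZMod p) => ω g * x) (-a) := by
  refine ⟨ha.loc.neg, fun g h => ?_⟩
  have h1 := ha.mul g h
  simp only [Pi.neg_apply] at *
  rw [h1]; ring

private theorem coc_zero : Coc (fun g (x : ZMod p) => ω g * x) (0 : Γ → ZMod p) := by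
  refine ⟨IsLocallyConstant.const (0 : ZMod p), fun g h => ?_⟩
  simp

private theorem coc_sub {a b : Γ → ZMod p} (ha : Coc (fun g (x : ZMod p) => ω g * x) a)
    (hb : Coc (fun g (x : ZMod p) => ω g * x) b) :
    Coc (fun g (x : ZMod p) => ω g * x) (a - b) := by
  rw [sub_eq_add_neg]; exact coc_add ha (coc_neg hb)

/-- The coboundaries. -/
private def cob (ω : Γ → ZMod p) : ZMod p →+ (Γ → ZMod p) where
  toFun c g := c - ω g * c
  map_zero' := by funext g; simp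
  map_add' a b := by funext g; simp only [Pi.add_apply]; ring

/-- The crossed homomorphisms which vanish on `W`. -/
private def KK (ω : Γ → ZMod p) (W : Subgroup Γ) : AddSubgroup (Γ → ZMod p) where
  carrier := {H | Coc (fun g (x : ZMod p) => ω g * x) H ∧ ∀ g ∈ W, H g = 0}
  add_mem' := by
    rintro a b ⟨ha, ha'⟩ ⟨hb, hb'⟩
    refine ⟨coc_add ha hb, fun g hg => ?_⟩
    simp only [Pi.add_apply, ha' g hg, hb' g hg, add_zero]
  zero_mem' := ⟨coc_zero, fun g _ => rfl⟩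
  neg_mem' := by
    rintro a ⟨ha, ha'⟩
    refine ⟨coc_neg ha, fun g hg => ?_⟩
    simp only [Pi.neg_apply, ha' g hg, neg_zero]

private theorem mem_KK {W : Subgroup Γ} {H : Γ → ZMod p} :
    H ∈ KK ω W ↔ Coc (fun g (x : ZMod p) => ω g * x) H ∧ ∀ g ∈ W, H g = 0 := Iff.rfl

end coc

section abs

variable {p : ℕ} [Fact p.Prime] {Γ : Type} [Group Γ] [TopologicalSpace Γ] [IsTopologicalGroup Γ]
  [CompactSpace Γ] {ω : Γ → ZMod p}

/-- The kernel of `ω`. -/
private def ker (hω : ChO p ω) : Subgroup Γ where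
  carrier := {g | ω g = 1}
  mul_mem' := by
    intro a b ha hb
    have ha' : ω a = 1 := ha
    have hb' : ω b = 1 := hb
    show ω (a * b) = 1
    rw [hω.mul, ha', hb', mul_one]
  one_mem' := hω.one
  inv_mem' := by
    intro a ha
    have ha' : ω a = 1 := ha
    show ω a⁻¹ = 1
    have h := hω.mul a a⁻¹
    rw [mul_inv_cancel, hω.one, ha', one_mul] at h
    exact h.symm

/-- The group `W`. -/
private theorem exW (hZ : S_Zor) (hω : ChO p ω)
    (hker : ∀ H : Γ → ZMod p, Coc (fun g (x : ZMod p) => ω g * x) H →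
      (∀ g, ω g = 1 → H g = 0) → ∃ c : ZMod p, ∀ g, H g = c - ω g * c)
    (Y : AddSubgroup (Γ → ZMod p)) (hY : ∀ y ∈ Y, Coc (fun g (x : ZMod p) => ω g * x) y) :
    ∃ W : Subgroup Γ, IsClosed (W : Set Γ) ∧ (∀ g ∈ W, ω g = 1) ∧
      (∀ y ∈ Y, (∀ g ∈ W, y g = 0) → ∃ c : ZMod p, ∀ g, y g = c - ω g * c) ∧
      (∀ k : W → ZMod p, HomP p k → ∃ y ∈ Y, ∀ g : W, k g = y g) := by
  have hNc : IsClosed ((ker hω : Subgroup Γ) : Set Γ) := hω.loc.isClosed_fiber 1
  have : CompactSpace (ker hω) := isCompact_iff_compactSpace.mp hNc.isCompact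
  set res : (Γ → ZMod p) →+ (ker hω → ZMod p) :=
    { toFun := fun f n => f n
      map_zero' := rfl
      map_add' := fun _ _ => rfl } with hres
  obtain ⟨W₀, hW1, hW2, hW3⟩ := hZ p (ker hω) (Y.map res) (by
    rintro _ ⟨y, hy, rfl⟩
    refine ⟨(hY y hy).loc.comp_continuous continuous_subtype_val, fun a b => ?_⟩
    have h1 := (hY y hy).mul a b
    have h2 : ω a = 1 := a.2
    simp only [h2, one_mul] at h1
    exact h1)
  have hmem : ∀ g : Γ, g ∈ W₀.map (ker hω).subtype ↔ ∃ h : g ∈ ker hω, (⟨g, h⟩ : ker hω) ∈ W₀ := by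
    intro g
    constructor
    · rintro ⟨x, hx, rfl⟩
      exact ⟨x.2, hx⟩
    · rintro ⟨h, hx⟩
      exact ⟨⟨g, h⟩, hx, rfl⟩
  refine ⟨W₀.map (ker hω).subtype, ?_, ?_, ?_, ?_⟩
  · have := hNc.isClosedEmbedding_subtypeVal.isClosedMap _ hW1
    rw [Subgroup.coe_map]
    exact this
  · intro g hg
    obtain ⟨h, -⟩ := (hmem g).1 hg
    exact h
  · intro y hy hyW
    refine hker y (hY y hy) fun g hg => ?_
    have h1 : res y = 0 := hW2 (res y) ⟨y, hy, rfl⟩ fun x hx =>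
      hyW x ((hmem x).2 ⟨x.2, hx⟩)
    exact congrFun h1 ⟨g, hg⟩
  · intro k hk
    obtain ⟨y', ⟨y, hy, rfl⟩, h1⟩ := hW3
      (fun x => k ⟨(x.1 : Γ), (hmem _).2 ⟨x.1.2, x.2⟩⟩) ⟨by
        refine hk.loc.comp_continuous ?_
        exact (continuous_subtype_val.comp continuous_subtype_val).subtype_mk _, fun a b => by
        rw [← hk.add]
        rfl⟩
    refine ⟨y, hy, ?_⟩
    rintro ⟨g, hg⟩
    obtain ⟨h2, h3⟩ := (hmem g).1 hg
    exact h1 ⟨⟨g, h2⟩, h3⟩

/-- The cardinality of the group `𝒦`. -/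
private theorem cardK {Y : AddSubgroup (Γ → ZMod p)}
    (hY : ∀ y ∈ Y, Coc (fun g (x : ZMod p) => ω g * x) y)
    (hcob : ∀ c : ZMod p, (fun g => c - ω g * c) ∈ Y) {κ : ℕ} {T : Finset (Γ → ZMod p)}
    (hTc : T.card = p ^ κ) (hTZ : ∀ t ∈ T, Coc (fun g (x : ZMod p) => ω g * x) t)
    (hTu : ∀ H : Γ → ZMod p, Coc (fun g (x : ZMod p) => ω g * x) H → ∃! t, t ∈ T ∧ H - t ∈ Y)
    {W : Subgroup Γ} (h1 : ∀ g ∈ W, ω g = 1)
    (h2 : ∀ y ∈ Y, (∀ g ∈ W, y g = 0) → ∃ c : ZMod p, ∀ g, y g = c - ω g * c)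
    (h3 : ∀ k : W → ZMod p, HomP p k → ∃ y ∈ Y, ∀ g : W, k g = y g) :
    Nat.card (KK ω W) = p ^ κ * Nat.card (cob ω).range := by
  have hk : ∀ t : T, ∃ y ∈ Y, ∀ g ∈ W, t.1 g = y g := by
    intro t
    obtain ⟨y, hy, h⟩ := h3 (fun g => t.1 g)
      ⟨(hTZ t t.2).loc.comp_continuous continuous_subtype_val, fun a b => by
        have h4 := (hTZ t t.2).mul a b
        have h5 : ω a = 1 := h1 a a.2
        simp only [h5, one_mul] at h4
        exact h4⟩
    exact ⟨y, hy, fun g hg => h ⟨g, hg⟩⟩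
  choose yt hyt hyt' using hk
  have hcobK : ∀ b ∈ (cob ω).range, b ∈ KK ω W := by
    rintro _ ⟨c, rfl⟩
    refine ⟨hY _ (hcob c), fun g hg => ?_⟩
    show c - ω g * c = 0
    rw [h1 g hg, one_mul, sub_self]
  have hcobY : ∀ b ∈ (cob ω).range, b ∈ Y := by
    rintro _ ⟨c, rfl⟩
    exact hcob c
  have hmem : ∀ (t : T) (b : (cob ω).range), t.1 - yt t + b.1 ∈ KK ω W := by
    intro t b
    refine AddSubgroup.add_mem _ ⟨coc_sub (hTZ t t.2) (hY _ (hyt t)), fun g hg => ?_⟩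
      (hcobK b b.2)
    show t.1 g - yt t g = 0
    rw [hyt' t g hg, sub_self]
  have hbij : Function.Bijective (fun x : T × (cob ω).range =>
      (⟨x.1.1 - yt x.1 + x.2.1, hmem x.1 x.2⟩ : KK ω W)) := by
    constructor
    · rintro ⟨t, b⟩ ⟨t', b'⟩ h
      have h4 : t.1 - yt t + b.1 = t'.1 - yt t' + b'.1 := congrArg Subtype.val h
      have h5 : t = t' := by
        obtain ⟨s, -, hs⟩ := hTu _ (hmem t b).1
        have h6 := hs t.1 ⟨t.2, by
          have : t.1 - yt t + b.1 - t.1 = b.1 - yt t := by abel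
          rw [this]
          exact AddSubgroup.sub_mem _ (hcobY _ b.2) (hyt t)⟩
        have h7 := hs t'.1 ⟨t'.2, by
          have : t.1 - yt t + b.1 - t'.1 = b'.1 - yt t' := by rw [h4]; abel
          rw [this]
          exact AddSubgroup.sub_mem _ (hcobY _ b'.2) (hyt t')⟩
        exact Subtype.ext (h6.trans h7.symm)
      subst h5
      have h6 : b = b' := Subtype.ext (add_left_cancel h4)
      rw [h6]
    · rintro ⟨H, hH⟩
      obtain ⟨t, ⟨ht, ht'⟩, -⟩ := hTu H hH.1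
      have hY2 : H - (t - yt ⟨t, ht⟩) ∈ Y := by
        have : H - (t - yt ⟨t, ht⟩) = (H - t) + yt ⟨t, ht⟩ := by abel
        rw [this]
        exact AddSubgroup.add_mem _ ht' (hyt _)
      obtain ⟨c, hc⟩ := h2 _ hY2 (fun g hg => by
        show H g - (t g - yt ⟨t, ht⟩ g) = 0
        have h9 : t g = yt ⟨t, ht⟩ g := hyt' ⟨t, ht⟩ g hg
        rw [hH.2 g hg, h9]
        simp)
      refine ⟨⟨⟨t, ht⟩, ⟨cob ω c, c, rfl⟩⟩, Subtype.ext ?_⟩
      show t - yt ⟨t, ht⟩ + cob ω c = H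
      have h8 : cob ω c = H - (t - yt ⟨t, ht⟩) := by
        funext g
        exact (hc g).symm
      rw [h8]; abel
  rw [← Nat.card_congr (Equiv.ofBijective _ hbij), Nat.card_prod, ← hTc]
  congr 1
  simp

private theorem abs_lw (hZ : S_Zor) (hF : S_Fdl) (hω : ChO p ω)
    (hker : ∀ H : Γ → ZMod p, Coc (fun g (x : ZMod p) => ω g * x) H →
      (∀ g, ω g = 1 → H g = 0) → ∃ c : ZMod p, ∀ g, H g = c - ω g * c)
    (Y : AddSubgroup (Γ → ZMod p)) (hY : ∀ y ∈ Y, Coc (fun g (x : ZMod p) => ω g * x) y)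
    (hcob : ∀ c : ZMod p, (fun g => c - ω g * c) ∈ Y) (κ : ℕ) (T : Finset (Γ → ZMod p))
    (hTc : T.card = p ^ κ) (hTZ : ∀ t ∈ T, Coc (fun g (x : ZMod p) => ω g * x) t)
    (hTu : ∀ H : Γ → ZMod p, Coc (fun g (x : ZMod p) => ω g * x) H →
      ∃! t, t ∈ T ∧ H - t ∈ Y) :
    ∃ (W : Subgroup Γ) (d : ℕ) (e : Fin d → Γ),
      IsClosed (W : Set Γ) ∧ (∀ g ∈ W, ω g = 1) ∧
      (∀ y ∈ Y, (∀ g ∈ W, y g = 0) → ∃ c : ZMod p, ∀ g, y g = c - ω g * c) ∧
      (∀ k : W → ZMod p, HomP p k → ∃ y ∈ Y, ∀ g : W, k g = y g) ∧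
      UE p ω (fun _ : Unit => W) e ∧
      ((∀ g : Γ, ω g = 1) → d = κ) ∧
      ((∃ g : Γ, ω g ≠ 1) → d = κ + 1 ∧ ∃ j, ω (e j) ≠ 1) := by
  have hp : p.Prime := Fact.out
  obtain ⟨W, hW1, hW2, hW3, hW4⟩ := exW hZ hω hker Y hY
  have hcard := cardK hY hcob hTc hTZ hTu hW2 hW3 hW4
  have hfinr : Finite (cob ω).range := by
    have : Finite (Set.range (cob ω)) := Set.finite_range _
    exact this
  have hpos : Nat.card (KK ω W) ≠ 0 := by
    rw [hcard]
    exact mul_ne_zero (pow_ne_zero _ hp.ne_zero) Nat.card_pos.ne'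
  have : Finite (KK ω W) := Nat.finite_of_card_ne_zero hpos
  obtain ⟨d, e, hd, he⟩ := hF p Γ (KK ω W) (Set.toFinite _)
  have hd1 : p ^ d = p ^ κ * Nat.card (cob ω).range := by rw [← hd, hcard]
  refine ⟨W, d, e, hW1, hW2, hW3, hW4, ?_, ?_, ?_⟩
  · intro h hh c
    obtain ⟨y, hy, hyh⟩ := hW4 (h ()) ⟨(hh ()).loc, fun a b => by
      have h4 := (hh ()).mul a b
      have h5 : ω (a : Γ) = 1 := hW2 a a.2
      simp only [h5, one_mul] at h4
      exact h4⟩
    obtain ⟨k, hk, hku⟩ := he (fun j => c j - y (e j))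
    refine ⟨y + k.1, ⟨coc_add (hY y hy) k.2.1, ?_, ?_⟩, ?_⟩
    · rintro ⟨⟩ g
      show y g + k.1 g = h () g
      rw [k.2.2 g g.2, add_zero]
      exact (hyh g).symm
    · intro j
      show y (e j) + k.1 (e j) = c j
      rw [hk j]; ring
    · rintro H' ⟨h5, h6, h7⟩
      have h8 : H' - y ∈ KK ω W := by
        refine ⟨coc_sub h5 (hY y hy), fun g hg => ?_⟩
        show H' g - y g = 0
        have h9 := h6 () ⟨g, hg⟩
        have h10 := hyh ⟨g, hg⟩
        have h11 : H' g = y g := h9.trans h10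
        rw [h11, sub_self]
      have h9 := hku ⟨H' - y, h8⟩ (fun j => by
        show H' (e j) - y (e j) = c j - y (e j)
        rw [h7 j])
      have h10 : H' - y = k.1 := congrArg Subtype.val h9
      rw [← h10]; abel
  · intro h1
    have h2 : Nat.card (cob ω).range = 1 := by
      have h3 : (cob ω).range = ⊥ := by
        rw [eq_bot_iff]
        rintro _ ⟨c, rfl⟩
        rw [AddSubgroup.mem_bot]
        funext g
        show c - ω g * c = 0
        rw [h1 g, one_mul, sub_self]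
      rw [h3]
      simp
    rw [h2, mul_one] at hd1
    exact Nat.pow_right_injective hp.two_le hd1
  · rintro ⟨g₀, hg₀⟩
    have hinj : Function.Injective (cob ω) := by
      rw [injective_iff_map_eq_zero]
      intro c hc
      have h3 : c - ω g₀ * c = 0 := congrFun hc g₀
      have h4 : (1 - ω g₀) * c = 0 := by rw [← h3]; ring
      rcases mul_eq_zero.1 h4 with h5 | h5
      · exact absurd (sub_eq_zero.1 h5).symm hg₀
      · exact h5
    have h2 : Nat.card (cob ω).range = p := by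
      have h3 : Nat.card (cob ω).range = Nat.card (ZMod p) :=
        (Nat.card_congr (Equiv.ofInjective _ hinj)).symm
      rw [h3, Nat.card_zmod]
    rw [h2, ← pow_succ] at hd1
    refine ⟨Nat.pow_right_injective hp.two_le hd1, ?_⟩
    by_contra hcon
    push Not at hcon
    have hb : cob ω 1 ∈ KK ω W := by
      refine ⟨hY _ (hcob 1), fun g hg => ?_⟩
      show 1 - ω g * 1 = 0
      rw [hW2 g hg, one_mul, sub_self]
    have h3 : (⟨cob ω 1, hb⟩ : KK ω W) = 0 := by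
      refine (he (fun _ => 0)).unique (fun j => ?_) (fun j => rfl)
      show 1 - ω (e j) * 1 = 0
      rw [hcon j, one_mul, sub_self]
    have h4 : cob ω 1 = 0 := congrArg Subtype.val h3
    have h5 : (1 : ZMod p) = 0 := hinj (by rw [h4, map_zero])
    exact one_ne_zero h5

end abs

end LwAux

theorem tLw : S_Lc1 → S_Has → S_Sep → S_Zor → S_Fdl → S_Lcl → S_Lw := by
  intro hLc1 hHas _ hZ hF hL
  intro p _ K _ _ v Q ϖ R hLF α h hα hh Y hY hcob κ hT
  obtain ⟨T, hTc, hTZ, hTu⟩ := hT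
  have : CharP v.Completion p := (hLc1 p K v Q ϖ R hLF).2.2.2.2.2.2.1
  have hω : ChO p (omc p (K := v.Completion) α) :=
    (hHas p v.Completion (Kvs v) α h hα hh).1.1
  exact LwAux.abs_lw hZ hF hω (hL p K v Q ϖ R hLF α h hα hh).2.2.2 Y hY hcob κ T hTc hTZ hTu

end Pool.Agent.MP72P
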