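import Pool.Agent.Lib.MP_72e2e6_nt.P3.B.Spec

/-!
# MP_72e2e6_nt, theorem T3p, part C: local theory

The proofs are complete in the docstrings; every module is independent (used statements are
hypotheses): file `P3/C/<Name>.lean` (import this file only) with `theorem t<Name> : S_<Name>` or
`theorem t<Name> (h1 : S_X) (h2 : S_Y) .. : S_<Name>` (in the order of the docstring), namespace
`Pool.Agent.MP72P`, other declarations `private`. The corresponding modules for `p = 2`, `K = F(t)` are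
`W2/C/<Name>.lean` (Lc1, Lc2, Cst, Nr, Fr, FrG, Zor): look at them. `K` is a field of characteristic
`p`, `v` an absolute value of the type `LF`, `K_v = v.Completion`, `℘(x) = x ^ p - x`,
`P_h(x) = x ^ p - h x`.
-/

namespace Pool.Agent.MP72P

open IntermediateField

/-- **Lc1** (300 lines). The completion.

Proof. (1)-(10) as in `W2/C/Lc1.lean`. (8) `θ = - ∑_{i ≥ 0} x ^ (p ^ i)` converges and `θ ^ p - θ = x`. (9)
`c = lim x ^ (Q ^ k)`, `Q` a power of `p`. (10) If `‖y‖ ≤ 1` then `‖y ^ p - y‖ ≤ 1`; so `‖y‖ > 1` and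
`‖y ^ p - y‖ = ‖y‖ ^ p`. (11) Let `h ≠ 0` and `ρ > 0` with `ρ ^ (p - 1) < ‖h‖`... precisely, let `‖x‖ < ‖h‖ * r`
where `r > 0`, `r ^ (p - 1) < ‖h‖`. Solve `y = (y ^ p - x) / h`: the iteration `y_0 = 0`,
`y_{k + 1} = (y_k ^ p - x) / h` stays in `‖y‖ ≤ ‖x‖ / ‖h‖ < r` and
`‖y_{k + 1} - y_k‖ = ‖(y_k - y_{k - 1}) ^ p‖ / ‖h‖ ≤ (r ^ (p - 1) / ‖h‖) * ‖y_k - y_{k - 1}‖`, a contraction; the
limit satisfies `y ^ p - h y = x`. -/
def S_Lc1 : Prop :=
  ∀ (p : ℕ) [Fact p.Prime] (K : Type) [Field K] [CharP K p] (v : AbsoluteValue K ℝ) (Q : ℕ)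
    (ϖ : K) (R : Finset K), LF v p Q ϖ R →
    (∀ x : K, ‖algebraMap K v.Completion x‖ = v x) ∧
    (∀ (x : v.Completion) (ε : ℝ), 0 < ε → ∃ y : K, ‖x - algebraMap _ _ y‖ < ε) ∧
    IsUltrametricDist v.Completion ∧
    (∀ x : v.Completion, x ≠ 0 → ∃ n : ℤ, ‖x‖ = v ϖ ^ n) ∧
    (∀ x : v.Completion, ‖x‖ ≤ 1 → ∃ r ∈ R, ‖x - algebraMap _ _ r‖ < 1) ∧
    (∀ x : v.Completion, ‖x‖ ≤ 1 → ‖x ^ Q - x‖ < 1) ∧
    CharP v.Completion p ∧
    (∀ x : v.Completion, ‖x‖ < 1 → ∃ θ : v.Completion, ‖θ‖ < 1 ∧ θ ^ p - θ = x) ∧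
    (∀ x : v.Completion, ‖x‖ ≤ 1 → ∃ c : v.Completion, c ^ Q = c ∧ ‖x - c‖ < 1) ∧
    (∀ y : v.Completion, 1 < ‖y ^ p - y‖ → 1 < ‖y‖ ∧ ‖y ^ p - y‖ = ‖y‖ ^ p) ∧
    ∀ h : v.Completion, h ≠ 0 → ∃ ρ : ℝ, 0 < ρ ∧ ∀ x : v.Completion, ‖x‖ ≤ ρ →
      ∃ y : v.Completion, Ph p h y = x ∧ ‖y‖ * ‖h‖ = ‖x‖

/-- **Lc2** (150 lines, uses `S_Lc1`). The spectral norm on the separable closure.

Proof. As in `W2/C/Lc2.lean`. (8) `X ^ p - X - x` is separable, so it has roots `θ + c`, `c` in the prime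
field, in `Kvs v`, and the product of their norms is `nm x < 1`. (9) uniqueness: two such roots differ by an
element of the prime field of norm less than `1`. -/
def S_Lc2 : Prop :=
  ∀ (p : ℕ) [Fact p.Prime] (K : Type) [Field K] [CharP K p] (v : AbsoluteValue K ℝ) (Q : ℕ)
    (ϖ : K) (R : Finset K), LF v p Q ϖ R →
    (∀ x : Kvs v, 0 ≤ nm v x) ∧ (∀ x : Kvs v, nm v x = 0 ↔ x = 0) ∧
    (∀ x y : Kvs v, nm v (x * y) = nm v x * nm v y) ∧
    (∀ x y : Kvs v, nm v (x + y) ≤ max (nm v x) (nm v y)) ∧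
    (∀ x : v.Completion, nm v (algebraMap v.Completion (Kvs v) x) = ‖x‖) ∧
    (∀ (g : Gal(Kvs v/v.Completion)) (x : Kvs v), nm v (g x) = nm v x) ∧
    (∀ x ∈ Cst p (Kvs v), x ≠ 0 → nm v x = 1) ∧
    (∀ x : Kvs v, nm v x < 1 → ∃ θ : Kvs v, nm v θ < 1 ∧ θ ^ p - θ = x) ∧
    (∀ θ θ' : Kvs v, nm v θ < 1 → nm v θ' < 1 → θ ^ p - θ = θ' ^ p - θ' → θ = θ') ∧
    CharP (Kvs v) p

/-- **Cst** (150 lines). The constants form a subfield, which is algebraically closed.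

Proof. As in `W2/C/Cst.lean` (`q = p`): if `x ^ (p ^ n) = x`, then `x ^ (p ^ (n k)) = x` for all `k ≥ 1`. (4) roots
of a monic polynomial `P` with coefficients in `Cst`: the coefficients are in a finite subfield
`{x | x ^ (p ^ n) = x}`; the ring generated by this subfield and a root `x ∈ L` is a finite dimensional
domain over it, so a finite field, of order `p ^ m`. (5) a monic polynomial of degree `≥ 1` over `Cst` has a
root in `Cst`: it is a product of irreducible polynomials over the finite (perfect) subfield, which are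
separable, so there is a root in `L`. (6) `X ^ (p ^ n) - X` is separable. -/
def S_Cst : Prop :=
  ∀ (p : ℕ) [Fact p.Prime] (L : Type) [Field L] [CharP L p] [IsSepClosed L],
    (0 : L) ∈ Cst p L ∧ (1 : L) ∈ Cst p L ∧
    (∀ x ∈ Cst p L, ∀ y ∈ Cst p L, x + y ∈ Cst p L ∧ x * y ∈ Cst p L ∧ x - y ∈ Cst p L) ∧
    (∀ x ∈ Cst p L, x⁻¹ ∈ Cst p L) ∧
    (∀ (P : Polynomial L) (x : L), P.Monic → (∀ i, P.coeff i ∈ Cst p L) → P.eval x = 0 →
      x ∈ Cst p L) ∧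
    (∀ P : Polynomial L, P.Monic → 1 ≤ P.natDegree → (∀ i, P.coeff i ∈ Cst p L) →
      ∃ x ∈ Cst p L, P.eval x = 0) ∧
    (∀ n, 1 ≤ n → {x : L | x ^ p ^ n = x}.ncard = p ^ n) ∧
    ∀ c : ZMod p, op L c ∈ Cst p L

/-- **Nr** (350 lines, uses `S_Lc1`, `S_Lc2`, `S_Cst`). The maximal unramified extension.

Proof. (1)-(7) as in `W2/C/Nr.lean` (with `p ^ n` in the place of `q ^ n`; `κ = {x ∈ K_v | x ^ Q = x}`; `d` there is
the exponent `r` with `Q = p ^ r` here). (3) `θ ^ p - θ = x`: `x = c + y`, a root for `c` is in `Cst`, the root of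
norm less than `1` for `y` is fixed by all `g` which fix `Knr` (`S_Lc2` (9)). (8) Let `y ^ m = x ∈ Knr`,
`nm x = 1`, `p ∤ m`. Let `c ∈ Cst`, `nm (x - c) < 1`, `d ∈ Cst` with `d ^ m = c` (`S_Cst`), `u = y / d`,
`nm (u ^ m - 1) < 1`. `u ^ m - 1 = ∏ (u - ξ)` over the `m` roots `ξ` of `ξ ^ m = 1` (`p ∤ m`; in `Cst`), so
`nm (u - ξ) < 1` for some `ξ`; let `u' = u / ξ`. For `g` fixing `Knr` `(g u') ^ m = u' ^ m`, so `g u' = ξ' u'`,
`nm (ξ' - 1) < 1`, so `ξ' = 1` (differences of constants are constants). So `u'`, `y ∈ Knr`. (9) Let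
`x ∈ Knr` such that `nm (g x - x) ≤ 1` for all `g`. If `nm x ≤ 1` take `y = 0`. Otherwise `nm x = v ϖ ^ (- n)`,
`n ≥ 1` (1), let `c ∈ Cst` with `nm (ϖ ^ n x - c) < 1`; `nm (g c - c) < 1` for all `g`, so `g c = c` and
`c ∈ K_v`; `x' = x - c ϖ ^ (- n)` has a smaller norm and the same property; induction on `n`. -/
def S_Nr : Prop :=
  ∀ (p : ℕ) [Fact p.Prime] (K : Type) [Field K] [CharP K p] (v : AbsoluteValue K ℝ) (Q : ℕ)
    (ϖ : K) (R : Finset K), LF v p Q ϖ R →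
    (∀ x ∈ Knr p v, x ≠ 0 → ∃ n : ℤ, nm v x = v ϖ ^ n) ∧
    (∀ x ∈ Knr p v, nm v x ≤ 1 → ∃ c ∈ Cst p (Kvs v), nm v (x - c) < 1) ∧
    (∀ x ∈ Knr p v, nm v x ≤ 1 → ∃ θ ∈ Knr p v, θ ^ p - θ = x) ∧
    (∀ x ∈ Cst p (Kvs v), x ∈ Knr p v) ∧
    (∀ (x : Kvs v) (k : ℕ), x ^ p ^ k ∈ Knr p v → x ∈ Knr p v) ∧
    (∀ g : Gal(Kvs v/v.Completion), IsGeo p g ↔ ∀ x ∈ Knr p v, g x = x) ∧
    (∀ x : v.Completion, algebraMap v.Completion (Kvs v) x ∈ Cst p (Kvs v) → x ^ Q = x) ∧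
    (∀ (x y : Kvs v) (m : ℕ), x ∈ Knr p v → nm v x = 1 → ¬ p ∣ m → y ^ m = x → y ∈ Knr p v) ∧
    ∀ x ∈ Knr p v, (∀ g : Gal(Kvs v/v.Completion), nm v (g x - x) ≤ 1) →
      ∃ y : v.Completion, nm v (x - algebraMap v.Completion (Kvs v) y) ≤ 1

/-- **Fr** (150 lines, uses `S_Lc1`, `S_Lc2`, `S_Cst`, `S_Nr`). Local Frobenius elements, and a constant
of `K_v` with a nontrivial Artin-Schreier class.

Proof. (1) as in `W2/C/Fr.lean`, (1). (2) `κ = {x ∈ K_v | x ^ Q = x}` is finite (it has `Q` elements: the `c` of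
`S_Lc1` (9) for `r ∈ R`), `x ↦ x ^ p - x` maps it to itself and is not injective, so there is `c ∈ κ` which is
not in `℘(κ)`. If `c = ℘(y)` with `y ∈ K_v` then `‖y‖ ≤ 1`, `z = y ^ Q - y` satisfies `‖z‖ < 1` and
`℘(z) = c ^ Q - c = 0`, so `z = 0`, `y ∈ κ`: contradiction. -/
def S_FrL : Prop :=
  ∀ (p : ℕ) [Fact p.Prime] (K : Type) [Field K] [CharP K p] (v : AbsoluteValue K ℝ) (Q : ℕ)
    (ϖ : K) (R : Finset K), LF v p Q ϖ R →
    (∃ g : Gal(Kvs v/v.Completion), IsFro p Q g) ∧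
    ∃ c : v.Completion, c ^ Q = c ∧ ∀ y : v.Completion, y ^ p - y ≠ c

/-- **FrG** (200 lines, uses `S_Cst`). The global constants and Frobenius elements. `q₀` is the order of
the field of constants of `K`.

Proof. (1) as in `S_FrL` (1) (`W2/C/Fr.lean`, (1)) with `K`, `q₀` in the place of `K_v`, `Q`: the coefficients of
`∏_{x ∈ R_n} (X - x)` are in `K` and constants, so fixed by `y ↦ y ^ q₀`. (2), (3), (4) as (3), (4), (5) of
`W2/C/FrG.lean`. -/
def S_FrG : Prop :=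
  ∀ (p : ℕ) [Fact p.Prime] (K : Type) [Field K] [CharP K p] (q₀ r : ℕ), 1 ≤ r → q₀ = p ^ r →
    (∀ x : K, algebraMap K (Kgs K) x ∈ Cst p (Kgs K) ↔ x ^ q₀ = x) →
    (∃ g : Gal(Kgs K/K), IsFro p q₀ g) ∧
    (∀ g : Gal(Kgs K/K), IsGeo p g ↔ ∀ x ∈ Kgeo p K, g x = x) ∧
    (∀ (L : Type) [Field L] [Algebra K L] (ι : Kgs K →ₐ[K] L),
      (∀ c ∈ Cst p (Kgs K), ι c ∈ Cst p L) ∧ ∀ c ∈ Cst p L, ∃ c' ∈ Cst p (Kgs K), ι c' = c) ∧
    ∀ (L : Type) [Field L] [Algebra K L] (ι : Kgs K →ₐ[K] L) (g : L → L)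
      (σ : Gal(Kgs K/K)), Rst ι g σ →
      (IsGeo p g ↔ IsGeo p σ) ∧ ∀ Q : ℕ, IsFro p Q g ↔ IsFro p Q σ

/-- **Zor** (200 lines). Subgroups with a given group of homomorphisms (abstract).

Proof. See the second part of `W2/C/Zor.lean`. Consider the set `𝒲` of the closed subgroups `W ≤ Γ` such
that `(∀ g ∈ W, y g = 0) → y = 0` for all `y ∈ Y`. `⊤ ∈ 𝒲`. A chain in `𝒲` has a lower bound, its
intersection (compactness: `{g | y g ≠ 0}` is closed). By Zorn let `W` be minimal. Let `k` be a `HomP` on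
`W` which is not a restriction of an element of `Y`. `W' = ker k` is a closed subgroup, `W' ≠ W` (`k ≠ 0`).
If `y = 0` on `W'`, then `y` restricted to `W` factors through `W / W' ≅ ZMod p` (the image of `k ≠ 0`), so
`y = c k` on `W`; if `c ≠ 0` then `k = c⁻¹ y` is the restriction of `(c⁻¹).val • y ∈ Y`, a contradiction; so
`y = 0` on `W` and `y = 0`. So `W' ∈ 𝒲`, contradicting minimality. -/
def S_Zor : Prop :=
  ∀ (p : ℕ) [Fact p.Prime] (Γ : Type) [Group Γ] [TopologicalSpace Γ] [IsTopologicalGroup Γ]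
    [CompactSpace Γ] (Y : AddSubgroup (Γ → ZMod p)), (∀ y ∈ Y, HomP p y) →
    ∃ W : Subgroup Γ, IsClosed (W : Set Γ) ∧ (∀ y ∈ Y, (∀ g ∈ W, y g = 0) → y = 0) ∧
      ∀ k : W → ZMod p, HomP p k → ∃ y ∈ Y, ∀ g : W, k g = y g

/-- **Fdl** (80 lines). A finite group of functions with values in `ZMod p` has coordinates which are
evaluations.

Proof. `𝒦` is a vector space over `ZMod p` of dimension `d`. Induction on `d` (or linear algebra: the
evaluations span the dual space, so they contain a basis of it). If `𝒦 = 0` then `d = 0`. Otherwise some `y ∈ 𝒦`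
has `y g ≠ 0` for some `g`; `𝒦' = {y | y g = 0}` has dimension `d - 1`; take `g` and the points for `𝒦'`. -/
def S_Fdl : Prop :=
  ∀ (p : ℕ) [Fact p.Prime] (Γ : Type) (𝒦 : AddSubgroup (Γ → ZMod p)), (𝒦 : Set (Γ → ZMod p)).Finite →
    ∃ (d : ℕ) (e : Fin d → Γ), Nat.card 𝒦 = p ^ d ∧ ∀ c : Fin d → ZMod p, ∃! y : 𝒦, ∀ j, y.1 (e j) = c j

/-- **Lcl** (150 lines, uses `S_Lc1`, `S_Has`, `S_Sep`). Local crossed homomorphisms. `α ∈ Kvs v`,
`α ^ (p - 1) = h ∈ K_v`.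

Proof. (1) Let `H` be a crossed homomorphism; `H = hP α f' + (c - ω c)`, `f' ∈ K_v` (`S_Sep`). Let `ρ` be as in
`S_Lc1` (11) and `f ∈ K` with `‖f' - f‖ ≤ ρ`; `f' - f = P_h(y)`, so `hP α f' - hP α f` is a coboundary (`S_Has` (4),
(5)). (2) `S_Has` (5), (6) (`hP α f` for `f = P_h(y)`). (3) if `H` vanishes on the kernel `N` of `ω` then `H` is a
coboundary: `H (g n) = H g` for `n ∈ N` and `H (n g) = H g`, so `H (g) ` depends only on `ω(g)`, `Γ / N` is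
cyclic (a subgroup of the units of `ZMod p`); let `σ` map to a generator, `ω(σ) ≠ 1` (if `ω = 1` then `N = ⊤`,
`H = 0`), `c = H σ / (1 - ω σ)`; `H' = H - (c - ω c)` vanishes at `σ` and on `N`, so on the powers `σ ^ i n`,
i.e. everywhere. -/
def S_Lcl : Prop :=
  ∀ (p : ℕ) [Fact p.Prime] (K : Type) [Field K] [CharP K p] (v : AbsoluteValue K ℝ) (Q : ℕ)
    (ϖ : K) (R : Finset K), LF v p Q ϖ R →
    ∀ (α : Kvs v) (h : v.Completion), α ≠ 0 → α ^ (p - 1) = algebraMap v.Completion (Kvs v) h →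
    (∀ f : v.Completion, ∃ x : Kvs v, Ph p (α ^ (p - 1)) x = algebraMap v.Completion (Kvs v) f) ∧
    (∃ ρ : ℝ, 0 < ρ ∧ ∀ f : v.Completion, ‖f‖ ≤ ρ → ∃ c : ZMod p,
      ∀ g : Gal(Kvs v/v.Completion), hP p α f g = c - omc p α g * c) ∧
    (∀ H : Gal(Kvs v/v.Completion) → ZMod p, Coc (fun g (x : ZMod p) => omc p α g * x) H →
      ∃ (f : K) (c : ZMod p), ∀ g, H g = hP p α (algebraMap K v.Completion f) g +
        (c - omc p α g * c)) ∧
    ∀ H : Gal(Kvs v/v.Completion) → ZMod p, Coc (fun g (x : ZMod p) => omc p α g * x) H →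
      (∀ g, omc p α g = 1 → H g = 0) → ∃ c : ZMod p, ∀ g, H g = c - omc p α g * c

/-- **Lw** (250 lines, uses `S_Lc1`, `S_Has`, `S_Sep`, `S_Zor`, `S_Fdl`, `S_Lcl`). The local subgroup `W` and the
elements `e j`. `Y` is a group of crossed homomorphisms which contains the coboundaries and is of
finite index in the group of all crossed homomorphisms.

Proof. Let `Γ = Gal(Kvs v/K_v)`, `N = ker ω`, a closed subgroup. For `y ∈ Y` the restriction `y|N` is a `HomP` (`ω = 1`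
on `N`). Let `Y_N` be the group of these restrictions. By `S_Zor` for `N` (compact) there is a closed
`W ≤ N` such that `y ∈ Y`, `y|W = 0` implies `y|N = 0`, and every `HomP` on `W` is the restriction of an
element of `Y`. (1) clear. (2) If `y ∈ Y` vanishes on `W` then on `N`, so it is a coboundary (`S_Lcl` (4)).
Let `𝒦` be the group of all crossed homomorphisms on `Γ` which vanish on `W`. For every crossed homomorphism
`H` there is `y ∈ Y` with `H - y ∈ 𝒦` (`H|W` is a `HomP`). So `𝒦 / (𝒦 ∩ Y) ≅ Z / Y`, `Z` the group of all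
crossed homomorphisms, of order `p ^ κ`; and `𝒦 ∩ Y` is the group of the coboundaries (`c - ω c` vanishes on
`W ⊆ N` and is in `Y`), of order `1` if `ω = 1` and `p` otherwise. So `𝒦` is finite; let `e` be as in `S_Fdl` for
`𝒦`, `d = κ + [ω ≠ 1]`. `UE`: let `h` be a crossed homomorphism on `W` (a `HomP`) and `c` given; `y ∈ Y` with
`y|W = h`, and a unique `k ∈ 𝒦` with `k (e j) = c j - y (e j)`. -/
def S_Lw : Prop :=
  ∀ (p : ℕ) [Fact p.Prime] (K : Type) [Field K] [CharP K p] (v : AbsoluteValue K ℝ) (Q : ℕ)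
    (ϖ : K) (R : Finset K), LF v p Q ϖ R →
    ∀ (α : Kvs v) (h : v.Completion), α ≠ 0 → α ^ (p - 1) = algebraMap v.Completion (Kvs v) h →
    ∀ Y : AddSubgroup (Gal(Kvs v/v.Completion) → ZMod p),
    (∀ y ∈ Y, Coc (fun g (x : ZMod p) => omc p α g * x) y) →
    (∀ c : ZMod p, (fun g => c - omc p α g * c) ∈ Y) →
    ∀ κ : ℕ, (∃ T : Finset (Gal(Kvs v/v.Completion) → ZMod p), T.card = p ^ κ ∧
      (∀ t ∈ T, Coc (fun g (x : ZMod p) => omc p α g * x) t) ∧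
      ∀ H : Gal(Kvs v/v.Completion) → ZMod p, Coc (fun g (x : ZMod p) => omc p α g * x) H →
        ∃! t, t ∈ T ∧ H - t ∈ Y) →
    ∃ (W : Subgroup Gal(Kvs v/v.Completion)) (d : ℕ) (e : Fin d → Gal(Kvs v/v.Completion)),
      IsClosed (W : Set Gal(Kvs v/v.Completion)) ∧ (∀ g ∈ W, omc p α g = 1) ∧
      (∀ y ∈ Y, (∀ g ∈ W, y g = 0) → ∃ c : ZMod p, ∀ g, y g = c - omc p α g * c) ∧
      (∀ k : W → ZMod p, HomP p k → ∃ y ∈ Y, ∀ g : W, k g = y g) ∧
      UE p (omc p (K := v.Completion) α) (fun _ : Unit => W) e ∧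
      ((∀ g : Gal(Kvs v/v.Completion), omc p α g = 1) → d = κ) ∧
      ((∃ g : Gal(Kvs v/v.Completion), omc p α g ≠ 1) → d = κ + 1 ∧ ∃ j, omc p α (e j) ≠ 1)

end Pool.Agent.MP72P
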