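import Pool.Agent.Lib.MP_72e2e6_nt.P3.C.Spec

/-!
# MP_72e2e6_nt, theorem T3p, part C: subgroups with a given group of homomorphisms
-/

set_option autoImplicit false

namespace Pool.Agent.MP72P

section

variable {p : ℕ} [Fact p.Prime] {G : Type} [Group G]

private theorem zor_one {k : G → ZMod p} (hk : ∀ a b, k (a * b) = k a + k b) : k 1 = 0 := by
  have h1 := hk 1 1
  rw [mul_one] at h1
  exact (add_eq_left.1 h1.symm)

private theorem zor_inv {k : G → ZMod p} (hk : ∀ a b, k (a * b) = k a + k b) (g : G) :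
    k g⁻¹ = -k g := by
  have h1 := hk g g⁻¹
  rw [mul_inv_cancel, zor_one hk] at h1
  exact (neg_eq_of_add_eq_zero_right h1.symm).symm

private theorem zor_pow {k : G → ZMod p} (hk : ∀ a b, k (a * b) = k a + k b) (g : G) (n : ℕ) :
    k (g ^ n) = n * k g := by
  induction n with
  | zero => rw [pow_zero, zor_one hk, Nat.cast_zero, zero_mul]
  | succ n ih => rw [pow_succ, hk, ih]; push_cast; ring

/-- A homomorphism which vanishes on the kernel of another one is a multiple of it. -/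
private theorem zor_mul {k l : G → ZMod p} (hk : ∀ a b, k (a * b) = k a + k b)
    (hl : ∀ a b, l (a * b) = l a + l b) (h : ∀ g, k g = 0 → l g = 0) :
    ∃ c : ZMod p, ∀ g, l g = c * k g := by
  by_cases hex : ∃ g0, k g0 ≠ 0
  · obtain ⟨g0, hg0⟩ := hex
    refine ⟨l g0 / k g0, fun g => ?_⟩
    have h1 : k (g * (g0 ^ (k g / k g0).val)⁻¹) = 0 := by
      rw [hk, zor_inv hk, zor_pow hk, ZMod.natCast_zmod_val, div_mul_cancel₀ _ hg0,
        add_neg_cancel]
    have h2 := h _ h1
    rw [hl, zor_inv hl, zor_pow hl, ZMod.natCast_zmod_val, add_neg_eq_zero] at h2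
    rw [h2]
    ring
  · push Not at hex
    exact ⟨0, fun g => by rw [h g (hex g), zero_mul]⟩

end

theorem tZor : S_Zor := by
  classical
  intro p _ Γ _ _ _ _ Y hY
  have hcl : ∀ (k : Γ → ZMod p), IsLocallyConstant k → ∀ s : Set (ZMod p), IsClosed (k ⁻¹' s) := by
    intro k hk s
    rw [← isOpen_compl_iff, ← Set.preimage_compl]
    exact hk _
  let 𝒲 : Set (Set Γ) := {A | ∃ W : Subgroup Γ, (W : Set Γ) = A ∧ IsClosed A ∧
    ∀ y ∈ Y, (∀ g ∈ A, y g = 0) → y = 0}
  have htop : (Set.univ : Set Γ) ∈ 𝒲 :=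
    ⟨⊤, rfl, isClosed_univ, fun y _ hy => funext fun g => hy g (Set.mem_univ g)⟩
  obtain ⟨A, -, hA⟩ := zorn_superset_nonempty 𝒲 (by
    intro c hc hchain hcne
    obtain ⟨A0, hA0⟩ := hcne
    let 𝒢 : Set (Subgroup Γ) := {W | (W : Set Γ) ∈ c}
    have hmem : ∀ g, g ∈ (sInf 𝒢 : Subgroup Γ) ↔ g ∈ ⋂₀ c := by
      intro g
      rw [Subgroup.mem_sInf, Set.mem_sInter]
      constructor
      · intro hg A hA
        obtain ⟨W, hW, -⟩ := hc hA
        have h1 : W ∈ 𝒢 := by
          change (W : Set Γ) ∈ c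
          rw [hW]
          exact hA
        have h2 := hg W h1
        rw [← hW]
        exact h2
      · intro hg W hW
        exact hg _ hW
    refine ⟨⋂₀ c, ⟨sInf 𝒢, Set.ext hmem, ?_, ?_⟩, fun s hs => Set.sInter_subset_of_mem hs⟩
    · exact isClosed_sInter fun A hA => (hc hA).choose_spec.2.1
    · intro y hy hy0
      by_contra hcon
      have hall : ∀ A ∈ c, (A ∩ {g | y g ≠ 0}).Nonempty := by
        intro A hA
        by_contra hemp
        refine hcon ((hc hA).choose_spec.2.2 y hy fun g hg => ?_)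
        by_contra h1
        exact hemp ⟨g, hg, h1⟩
      have hcne : Nonempty c := ⟨⟨A0, hA0⟩⟩
      have hyc : IsClosed {g : Γ | y g ≠ 0} := hcl y (hY y hy).loc {0}ᶜ
      have h1 := IsCompact.nonempty_iInter_of_directed_nonempty_isCompact_isClosed
        (fun A : c => (A : Set Γ) ∩ {g | y g ≠ 0}) (by
          intro A B
          rcases hchain.total A.2 B.2 with hAB | hAB
          · exact ⟨A, subset_rfl, Set.inter_subset_inter_left _ hAB⟩
          · exact ⟨B, Set.inter_subset_inter_left _ hAB, subset_rfl⟩)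
        (fun A => hall A A.2)
        (fun A => (((hc A.2).choose_spec.2.1).inter hyc).isCompact)
        (fun A => ((hc A.2).choose_spec.2.1).inter hyc)
      obtain ⟨g, hg⟩ := h1
      rw [Set.mem_iInter] at hg
      have h2 : g ∈ ⋂₀ c := Set.mem_sInter.mpr fun A hA => (hg ⟨A, hA⟩).1
      have h3 : y g ≠ 0 := (hg ⟨A0, hA0⟩).2
      exact h3 (hy0 g h2)) _ htop
  obtain ⟨W, hWA, hWc, hWh⟩ := hA.prop
  subst hWA
  refine ⟨W, hWc, hWh, ?_⟩
  intro k hk
  by_contra hcon
  push Not at hcon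
  have hk1 : k 1 = 0 := zor_one hk.add
  let W' : Subgroup Γ :=
    { carrier := {g | ∃ hg : g ∈ W, k ⟨g, hg⟩ = 0}
      one_mem' := ⟨W.one_mem, hk1⟩
      mul_mem' := by
        rintro a b ⟨ha, ha'⟩ ⟨hb, hb'⟩
        refine ⟨W.mul_mem ha hb, ?_⟩
        have h1 := hk.add ⟨a, ha⟩ ⟨b, hb⟩
        rw [ha', hb', add_zero] at h1
        exact h1
      inv_mem' := by
        rintro a ⟨ha, ha'⟩
        refine ⟨W.inv_mem ha, ?_⟩
        have h1 := zor_inv hk.add ⟨a, ha⟩
        rw [ha', neg_zero] at h1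
        exact h1 }
  have hW'W : (W' : Set Γ) ⊆ W := fun g hg => hg.1
  have hW' : (W' : Set Γ) ∈ 𝒲 := by
    refine ⟨W', rfl, ?_, fun y hy hy0 => ?_⟩
    · have h1 : IsClosed (k ⁻¹' {0}) := by
        rw [← isOpen_compl_iff, ← Set.preimage_compl]
        exact hk.loc _
      have h2 := (hWc.isClosedEmbedding_subtypeVal.isClosed_iff_image_isClosed).mp h1
      have h3 : Subtype.val '' (k ⁻¹' {0}) = (W' : Set Γ) := by
        ext g
        constructor
        · rintro ⟨⟨g, hg⟩, hg0, rfl⟩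
          exact ⟨hg, hg0⟩
        · rintro ⟨hg, hg0⟩
          exact ⟨⟨g, hg⟩, hg0, rfl⟩
      rw [← h3]
      exact h2
    · obtain ⟨c, hc⟩ := zor_mul (l := fun g : W => y g) hk.add
        (fun a b => (hY y hy).add a b) (fun g hg => hy0 g ⟨g.2, hg⟩)
      by_cases hc0 : c = 0
      · refine hWh y hy fun g hg => ?_
        have h1 := hc ⟨g, hg⟩
        rw [hc0, zero_mul] at h1
        exact h1
      · exfalso
        obtain ⟨g, hg⟩ := hcon ((c⁻¹).val • y) (Y.nsmul_mem hy _)
        apply hg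
        have h1 : y (g : Γ) = c * k g := hc g
        rw [Pi.smul_apply, nsmul_eq_mul, ZMod.natCast_zmod_val, h1, ← mul_assoc,
          inv_mul_cancel₀ hc0, one_mul]
  have hle := hA.le_of_le hW' hW'W
  obtain ⟨g, hg⟩ := hcon 0 Y.zero_mem
  obtain ⟨hg1, hg2⟩ := hle g.2
  exact hg hg2

end Pool.Agent.MP72P
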